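import Pool.Agent.H14.BFL.Rat3

/-!
# Row RAT of the board kbfo, part 4: the height given the fine label
-/

set_option autoImplicit false

namespace Pool.BFL.RAT

open Finset Real
open Pool.Agent.H49.Ent Pool.Agent.H32.Dense Pool.STK Pool.KS3

theorem mem_fl {x a W : ℝ} (h : |x - a| ≤ W) : ⌊x⌋ ∈ Finset.Icc ⌊a - W⌋ ⌈a + W⌉ := by
  rw [Finset.mem_Icc]
  rw [abs_le] at h
  constructor
  · exact Int.floor_le_floor (by linarith only [h])
  · have h1 : (⌊x⌋ : ℝ) ≤ (⌈a + W⌉ : ℝ) := by
      have := Int.floor_le x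
      have := Int.le_ceil (a + W)
      linarith
    exact_mod_cast h1

theorem card_fl {a W : ℝ} (hW : 0 ≤ W) : ((Finset.Icc ⌊a - W⌋ ⌈a + W⌉).card : ℝ) ≤ 2 * W + 3 := by
  rw [Int.card_Icc]
  have h1 := Int.lt_floor_add_one (a - W)
  have h2 := Int.ceil_lt_add_one (a + W)
  have h3 : ((⌈a + W⌉ + 1 - ⌊a - W⌋).toNat : ℝ) = ((max (⌈a + W⌉ + 1 - ⌊a - W⌋) 0 : ℤ) : ℝ) := by
    have := Int.toNat_eq_max (⌈a + W⌉ + 1 - ⌊a - W⌋)
    exact_mod_cast congrArg (fun t : ℤ => (t : ℝ)) this
  rw [h3]
  push_cast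
  refine max_le ?_ (by linarith only [hW])
  linarith only [h1, h2]

variable {n : ℕ} {D : Dat n} {q : D.Ω → ℝ} {J : ℕ}

theorem c_chain {K r w₀ z M : ℕ} {κ : ℝ} (hOk : D.Ok K J r w₀ z M κ q) {a b : ℕ} (hab : a ≤ b)
    (hb : b ≤ M) : Det q (D.c b) (D.c a) := by
  obtain ⟨m, rfl⟩ := Nat.exists_eq_add_of_le hab
  induction m with
  | zero => exact fun ω ω' _ _ h => h
  | succ m ih =>
    intro ω ω' h1 h2 h
    exact ih (Nat.le_add_right a m) (by omega) ω ω' h1 h2 (hOk.c_c (a + m) (by omega) ω ω' h1 h2 h)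

/-- The height over the sheet of level `k`, given the label of level `k + B` and the cell. -/
theorem top (hCMR : CMRStmt) (n K j : ℕ) (C₁ : ℝ) (hn : 1 ≤ n) (hj : 1 ≤ j) (hC₁ : 1 ≤ C₁)
    (B U : ℕ) (hU : 1 ≤ U) (hB : (j + 2) * U ≤ B) :
    ∃ κ₀ : ℝ, 0 < κ₀ ∧ ∃ z₀ : ℕ, ∀ (J r w₀ z M k : ℕ) (κ : ℝ) (D : Dat n) (q : D.Ω → ℝ),
      κ ≤ κ₀ → z₀ ≤ z → D.Ok K J r w₀ z M κ q → k + B ≤ M → D.Hom z B k j C₁ →
      ∀ P₂ : ℕ, P₂ ≤ D.g k + (j + 1) * (U * z) → ∀ (S : Type) (W : D.Ω → S),
      Det q W (D.c (k + B)) → Det q W (D.cell J (w₀ + (k + B) * z)) →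
      CH q (fun ω => ⌊(2 : ℝ) ^ P₂ * D.rh J k ω⌋) W ≤ (C₁ + 10) * z := by
  classical
  obtain ⟨Cl, hCl, hlip⟩ := lipJ n K
  have hB1 : 1 ≤ B := by
    have : 1 ≤ (j + 2) * U := Nat.one_le_iff_ne_zero.2 (by positivity)
    omega
  have hB1' : (1 : ℝ) ≤ B := by exact_mod_cast hB1
  set Λ : ℝ := (j + 1) * U + 3 with hΛ
  have hΛ1 : 3 ≤ Λ := by
    have : (0 : ℝ) ≤ (j + 1) * U := by positivity
    rw [hΛ]
    linarith only [this]
  have hη1 : (1 : ℝ) / (B * Λ) ≤ 1 := by
    rw [div_le_one (by positivity)]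
    nlinarith only [hB1', hΛ1]
  obtain ⟨κc, hκc, zc, hcmr⟩ := hCMR n K (1 / (B * Λ)) hn (by positivity) hη1
  refine ⟨min κc 1, by positivity, max zc (⌈2 * B * Cl⌉₊ + 1), ?_⟩
  intro J r w₀ z M k κ D q hκ hz hOk hkB hHom P₂ hP₂ S W hW1 hW2
  have hq := hOk.isLaw
  have hκ1 : κ ≤ κc := hκ.trans (min_le_left _ _)
  have hκ2 : κ ≤ 1 := hκ.trans (min_le_right _ _)
  have hzc : zc ≤ z := (le_max_left _ _).trans hz
  have hz2 : ⌈2 * (B : ℝ) * Cl⌉₊ + 1 ≤ z := (le_max_right _ _).trans hz
  have hz1 : (1 : ℝ) ≤ z := by exact_mod_cast (by omega : 1 ≤ z)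
  have hzB : 2 * (B : ℝ) * Cl ≤ z := by
    have h1 : ((⌈2 * (B : ℝ) * Cl⌉₊ : ℕ) : ℝ) + 1 ≤ z := by exact_mod_cast hz2
    have h2 := Nat.le_ceil (2 * (B : ℝ) * Cl)
    linarith only [h1, h2]
  have hz0 : (0 : ℝ) ≤ z := by linarith only [hz1]
  have hOkc := ok_mono hκ1 hOk
  have hexp : Real.exp (κ * z) ≤ Real.exp z := by
    refine Real.exp_le_exp.2 ?_
    calc κ * z ≤ 1 * z := mul_le_mul_of_nonneg_right hκ2 hz0
      _ = z := one_mul _
  exact by
   have l2 : 0 < Real.log 2 := Real.log_pos (by norm_num)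
   have l2' : Real.log 2 ≤ 1 := by linarith only [Real.log_two_lt_d9]
   have hexp2 : ∀ x y : ℝ, 0 ≤ y → x ≤ y → Real.exp (x * Real.log 2) ≤ Real.exp y := by
     intro x y hy hxy
     refine Real.exp_le_exp.2 ?_
     calc x * Real.log 2 ≤ y * Real.log 2 := mul_le_mul_of_nonneg_right hxy l2.le
       _ ≤ y * 1 := mul_le_mul_of_nonneg_left l2' hy
       _ = y := mul_one _
   have : Nonempty D.Ω := by
     by_contra h
     rw [not_nonempty_iff] at h
     have h1 := hq.sum_one
     rw [Finset.univ_eq_empty, Finset.sum_empty] at h1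
     exact zero_ne_one h1
   have : Nonempty D.Γ := ⟨D.c k (Classical.arbitrary _)⟩
   -- the projections
   have hpr' : ∀ v : ℕ, ∃ f : D.Γ → D.Γ, v < B → ∀ ω, 0 < q ω →
       D.c (k + v) ω = f (D.c (k + v + 1) ω) := by
     intro v
     by_cases hv : v < B
     · obtain ⟨f, hf⟩ := det_fun (hOk.c_c (k + v) (by omega))
       exact ⟨f, fun _ => hf⟩
     · exact ⟨id, fun h => absurd h hv⟩
   choose pr hpr using hpr'
   obtain ⟨prB, hprB⟩ := det_fun (c_chain hOk (Nat.le_add_right k B) hkB)
   set G : ℕ → D.Γ → Pl n := fun v x => D.F (k + v + 1) x - D.F (k + v) (pr v x) with hG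
   set S₀ : ℕ → ℝ := fun v => 2 * Real.exp z / 2 ^ D.g (k + v) with hS₀
   have hGdeg : ∀ v x, (G v x).totalDegree ≤ K := by
     intro v x
     exact (MvPolynomial.totalDegree_sub _ _).trans (max_le (hOk.F_deg _ _) (hOk.F_deg _ _))
   exact by
    have hGev : ∀ v < B, ∀ ω, 0 < q ω → ∀ b : Fin n → ℝ,
        MvPolynomial.eval b (G v (D.c (k + v + 1) ω)) =
          MvPolynomial.eval b (D.F (k + (v + 1)) (D.c (k + (v + 1)) ω)) -
            MvPolynomial.eval b (D.F (k + v) (D.c (k + v) ω)) := by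
      intro v hv ω hω b
      simp only [hG]
      rw [map_sub, ← hpr v hv ω hω]
      rfl
    -- the bad event
    set Gv : ℕ → D.Ω → Prop := fun v ω => ∀ b : Fin n → ℝ,
      (∀ i, |b i - D.Y J ω i| ≤ Real.exp (κc * z) / 2 ^ (w₀ + (k + v + 1) * z)) →
        |MvPolynomial.eval b (G v (D.c (k + v + 1) ω))| ≤ Real.exp z * S₀ v with hGv
    have hbad : ∀ v ∈ range B, Pb q (fun ω => ¬ Gv v ω) ≤ 1 / (B * Λ) := by
      intro v hv
      rw [Finset.mem_range] at hv
      refine hcmr J r w₀ z M D q hzc hOkc (k + v + 1) (by omega) (G v) (fun ω => 0 < q ω)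
        (fun _ => S₀ v) (hGdeg v) (fun _ => by positivity) ?_ ?_
      · have : Pb q (fun ω => ¬ 0 < q ω) = 0 := by
          unfold Pb
          refine Finset.sum_eq_zero fun ω _ => ?_
          by_cases h : 0 < q ω
          · rw [if_neg (not_not.2 h)]
          · rw [if_pos h]
            exact le_antisymm (not_lt.1 h) (hq.nonneg ω)
        rw [this]
        positivity
      · intro ω hω
        show |MvPolynomial.eval (D.Y J ω) (G v (D.c (k + v + 1) ω))| ≤ S₀ v
        rw [hGev v hv ω hω]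
        have h1 := hOk.F_hgt (k + v) (by omega) ω hω
        have h2 := hOk.F_hgt (k + (v + 1)) (by omega) ω hω
        have h3 : Real.exp (κ * z) / 2 ^ D.g (k + v) ≤ Real.exp z / 2 ^ D.g (k + v) :=
          div_le_div_of_nonneg_right hexp (by positivity)
        have h4 : Real.exp (κ * z) / 2 ^ D.g (k + (v + 1)) ≤ Real.exp z / 2 ^ D.g (k + v) := by
          refine div_le_div₀ (Real.exp_pos _).le hexp (by positivity) ?_
          exact pow_le_pow_right₀ (by norm_num) (hOk.g_mono (by omega))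
        have h5 : MvPolynomial.eval (D.Y J ω) (D.F (k + (v + 1)) (D.c (k + (v + 1)) ω)) -
            MvPolynomial.eval (D.Y J ω) (D.F (k + v) (D.c (k + v) ω)) =
            D.rh J (k + v) ω - D.rh J (k + (v + 1)) ω := by
          unfold Dat.rh
          ring
        rw [h5]
        have h6 : S₀ v = Real.exp z / 2 ^ D.g (k + v) + Real.exp z / 2 ^ D.g (k + v) := by
          simp only [hS₀]
          ring
        rw [h6]
        refine (abs_sub _ _).trans ?_
        linarith only [h1, h2, h3, h4]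
    exact by
     set Bad : D.Ω → Prop := fun ω => ∃ v < B, ¬ Gv v ω with hBad
     have hPbad : Pb q Bad ≤ 1 / Λ := by
       refine (Pb_union hq.nonneg (fun v ω => ¬ Gv v ω) B).trans ?_
       refine (Finset.sum_le_sum hbad).trans (le_of_eq ?_)
       rw [Finset.sum_const, Finset.card_range, nsmul_eq_mul]
       field_simp
     -- slopes
     have hg : ∀ v ≤ B, (D.g k : ℝ) + v * z - C₁ * z ≤ D.g (k + v) := by
       intro v hv
       have h1 := (abs_le.1 (hHom v hv)).1
       have h2 : (v : ℝ) * z ≤ j * (v * z) := by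
         have : (1 : ℝ) ≤ j := by exact_mod_cast hj
         have h3 : 0 ≤ (v : ℝ) * z := by positivity
         nlinarith only [this, h3]
       linarith only [h1, h2]
     have hP₂' : (P₂ : ℝ) ≤ D.g k + B * z := by
       have h1 : (P₂ : ℝ) ≤ D.g k + (j + 1) * (U * z) := by exact_mod_cast hP₂
       have h2 : ((j : ℝ) + 1) * U ≤ B := by
         have h3 : (j + 1) * U ≤ B := le_trans (Nat.mul_le_mul_right U (by omega)) hB
         exact_mod_cast h3
       have h4 := mul_le_mul_of_nonneg_right h2 hz0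
       linarith only [h1, h4]
     set lB : ℕ := w₀ + (k + B) * z with hlB
     set W₀ : ℝ := (1 + 2 * B * Cl) * Real.exp ((C₁ + 3) * z) with hW₀
     have hW₀1 : 1 ≤ W₀ := by
       have h1 : 1 ≤ Real.exp ((C₁ + 3) * z) := by
         rw [← Real.exp_zero]
         exact Real.exp_le_exp.2 (by nlinarith only [hB1', hzB, hCl, hC₁])
       have h2 : 0 ≤ 2 * B * Cl := by nlinarith only [hB1', hCl]
       nlinarith only [hB1', h1, hCl, h2]
     exact by
      set L₀ : ℝ := Real.exp (((j + 1) * U + 1) * z) with hL₀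
      have hL₀1 : 1 ≤ L₀ := by
        rw [hL₀, ← Real.exp_zero]
        exact Real.exp_le_exp.2 (by positivity)
      -- the target
      set aa : D.Γ × (Fin n → ℤ) → ℝ := fun x => 2 ^ P₂ *
        (MvPolynomial.eval (fun i => (x.2 i : ℝ) / 2 ^ lB) (D.F (k + B) x.1) -
          MvPolynomial.eval (fun i => (x.2 i : ℝ) / 2 ^ lB) (D.F k (prB x.1))) with haa
      have hgood : ∀ ω, 0 < q ω → ¬ Bad ω →
          |(2 : ℝ) ^ P₂ * D.rh J k ω - aa (D.c (k + B) ω, D.cell J lB ω)| ≤ W₀ := by
        intro ω hω hnb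
        set b : Fin n → ℝ := fun i => (D.cell J lB ω i : ℝ) / 2 ^ lB with hb
        have hlp : (0 : ℝ) < 2 ^ lB := by positivity
        have hbY : ∀ i, |b i - D.Y J ω i| ≤ 1 / 2 ^ lB := by
          intro i
          have a1 := Int.floor_le ((2 : ℝ) ^ lB * D.Y J ω i)
          have a2 := Int.lt_floor_add_one ((2 : ℝ) ^ lB * D.Y J ω i)
          have a3 : (D.cell J lB ω i : ℝ) = (⌊(2 : ℝ) ^ lB * D.Y J ω i⌋ : ℝ) := rfl
          have a4 : b i - D.Y J ω i = ((D.cell J lB ω i : ℝ) - 2 ^ lB * D.Y J ω i) / 2 ^ lB := by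
            rw [hb]
            field_simp
          rw [a4, abs_div, abs_of_pos hlp]
          refine div_le_div_of_nonneg_right ?_ hlp.le
          rw [a3, abs_le]
          constructor <;> linarith
        have hterm : ∀ v ∈ range B, |(2 : ℝ) ^ P₂ *
            (MvPolynomial.eval b (G v (D.c (k + v + 1) ω)) -
              MvPolynomial.eval (D.Y J ω) (G v (D.c (k + v + 1) ω)))| ≤
            2 * Cl * Real.exp ((C₁ + 3) * z) := by
          intro v hv
          rw [Finset.mem_range] at hv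
          have hgv : Gv v ω := by
            by_contra h
            exact hnb ⟨v, hv, h⟩
          have hle : w₀ + (k + v + 1) * z ≤ lB := by
            rw [hlB]
            exact Nat.add_le_add_left (Nat.mul_le_mul_right z (by omega)) w₀
          have h1 := hlip (G v (D.c (k + v + 1) ω)) (D.Y J ω) (1 / 2 ^ lB)
            (1 / 2 ^ (w₀ + (k + v + 1) * z)) (Real.exp z * S₀ v) (hGdeg _ _) (by positivity)
            (one_div_le_one_div_of_le (by positivity) (pow_le_pow_right₀ (by norm_num) hle))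
            (fun x hx => hgv x fun i => (hx i).trans (by
              refine div_le_div_of_nonneg_right ?_ (by positivity)
              rw [← Real.exp_zero]
              exact Real.exp_le_exp.2 (by positivity))) b hbY
          rw [abs_mul, abs_of_pos (show (0 : ℝ) < 2 ^ P₂ by positivity)]
          refine (mul_le_mul_of_nonneg_left h1 (by positivity)).trans ?_
          have e : (2 : ℝ) ^ P₂ * (Cl * (Real.exp z * S₀ v) *
              (1 / 2 ^ lB / (1 / 2 ^ (w₀ + (k + v + 1) * z)))) =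
              2 * Cl * (Real.exp z * Real.exp z * (((2 : ℝ) ^ P₂ / 2 ^ D.g (k + v)) *
                (2 ^ (w₀ + (k + v + 1) * z) / 2 ^ lB))) := by
            simp only [hS₀]
            field_simp
          rw [e, pow_div, pow_div, ← Real.exp_add, ← Real.exp_add, ← add_mul, ← Real.exp_add]
          refine mul_le_mul_of_nonneg_left ?_ (by positivity)
          refine Real.exp_le_exp.2 ?_
          have e2 : ((P₂ : ℝ) - D.g (k + v)) + (((w₀ + (k + v + 1) * z : ℕ) : ℝ) - (lB : ℕ)) ≤
              (C₁ + 1) * z := by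
            rw [hlB]
            push_cast
            have := hg v hv.le
            nlinarith only [hP₂', this]
          have e3 : (((P₂ : ℝ) - D.g (k + v)) + (((w₀ + (k + v + 1) * z : ℕ) : ℝ) - (lB : ℕ))) *
              Real.log 2 ≤ (C₁ + 1) * z := by
            have h0 : 0 ≤ (C₁ + 1) * (z : ℝ) := by nlinarith only [hB1', hzB, hCl, hC₁]
            calc _ ≤ ((C₁ + 1) * z) * Real.log 2 := mul_le_mul_of_nonneg_right e2 l2.le
              _ ≤ ((C₁ + 1) * z) * 1 := mul_le_mul_of_nonneg_left l2' h0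
              _ = (C₁ + 1) * z := mul_one _
          linarith only [e3]
        have htel : ∀ x : Fin n → ℝ, ∑ v ∈ range B, MvPolynomial.eval x (G v (D.c (k + v + 1) ω)) =
            MvPolynomial.eval x (D.F (k + B) (D.c (k + B) ω)) -
              MvPolynomial.eval x (D.F k (D.c k ω)) := by
          intro x
          rw [Finset.sum_congr rfl fun v hv => hGev v (Finset.mem_range.1 hv) ω hω x,
            Finset.sum_range_sub (fun v => MvPolynomial.eval x (D.F (k + v) (D.c (k + v) ω)))]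
          rfl
        have hsum : |(2 : ℝ) ^ P₂ * ((MvPolynomial.eval b (D.F (k + B) (D.c (k + B) ω)) -
            MvPolynomial.eval b (D.F k (D.c k ω))) -
            (MvPolynomial.eval (D.Y J ω) (D.F (k + B) (D.c (k + B) ω)) -
              MvPolynomial.eval (D.Y J ω) (D.F k (D.c k ω))))| ≤
            B * (2 * Cl * Real.exp ((C₁ + 3) * z)) := by
          rw [← htel b, ← htel (D.Y J ω), ← Finset.sum_sub_distrib, Finset.mul_sum]
          refine (Finset.abs_sum_le_sum_abs _ _).trans ((Finset.sum_le_sum hterm).trans (le_of_eq ?_))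
          rw [Finset.sum_const, Finset.card_range, nsmul_eq_mul]
        have hrB : |(2 : ℝ) ^ P₂ * D.rh J (k + B) ω| ≤ Real.exp ((C₁ + 3) * z) := by
          rw [abs_mul, abs_of_pos (show (0 : ℝ) < 2 ^ P₂ by positivity)]
          have h1 := (hOk.F_hgt (k + B) hkB ω hω).trans
            (div_le_div_of_nonneg_right hexp (show (0 : ℝ) ≤ 2 ^ D.g (k + B) by positivity))
          refine (mul_le_mul_of_nonneg_left h1 (by positivity)).trans ?_
          have e : (2 : ℝ) ^ P₂ * (Real.exp z / 2 ^ D.g (k + B)) =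
              Real.exp z * (2 ^ P₂ / 2 ^ D.g (k + B)) := by ring
          rw [e, pow_div, ← Real.exp_add]
          refine Real.exp_le_exp.2 ?_
          have e2 : ((P₂ : ℝ) - D.g (k + B)) ≤ C₁ * z := by
            have := hg B le_rfl
            linarith only [hP₂', this]
          have e3 : ((P₂ : ℝ) - D.g (k + B)) * Real.log 2 ≤ C₁ * z := by
            have h0 : 0 ≤ C₁ * (z : ℝ) := by nlinarith only [hB1', hzB, hCl, hC₁]
            calc _ ≤ (C₁ * z) * Real.log 2 := mul_le_mul_of_nonneg_right e2 l2.le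
              _ ≤ (C₁ * z) * 1 := mul_le_mul_of_nonneg_left l2' h0
              _ = C₁ * z := mul_one _
          nlinarith only [hz1, e3]
        have hfin : (2 : ℝ) ^ P₂ * D.rh J k ω - aa (D.c (k + B) ω, D.cell J lB ω) =
            2 ^ P₂ * D.rh J (k + B) ω -
              2 ^ P₂ * ((MvPolynomial.eval b (D.F (k + B) (D.c (k + B) ω)) -
                MvPolynomial.eval b (D.F k (D.c k ω))) -
                (MvPolynomial.eval (D.Y J ω) (D.F (k + B) (D.c (k + B) ω)) -
                  MvPolynomial.eval (D.Y J ω) (D.F k (D.c k ω)))) := by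
          simp only [haa]
          rw [← hprB ω hω]
          unfold Dat.rh
          ring
        rw [hfin]
        refine (abs_sub _ _).trans ?_
        refine (add_le_add hrB hsum).trans (le_of_eq ?_)
        rw [hW₀]
        ring
      exact by
       have hall : ∀ ω, 0 < q ω → |(2 : ℝ) ^ P₂ * D.rh J k ω - 0| ≤ L₀ := by
         intro ω hω
         rw [sub_zero, abs_mul, abs_of_pos (show (0 : ℝ) < 2 ^ P₂ by positivity)]
         have h1 := (hOk.F_hgt k (by omega) ω hω).trans
           (div_le_div_of_nonneg_right hexp (show (0 : ℝ) ≤ 2 ^ D.g k by positivity))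
         refine (mul_le_mul_of_nonneg_left h1 (by positivity)).trans ?_
         have e : (2 : ℝ) ^ P₂ * (Real.exp z / 2 ^ D.g k) =
             Real.exp z * (2 ^ P₂ / 2 ^ D.g k) := by ring
         rw [e, pow_div, ← Real.exp_add, hL₀]
         refine Real.exp_le_exp.2 ?_
         have h2 : (P₂ : ℝ) - D.g k ≤ (j + 1) * U * z := by
           have h1 : (P₂ : ℝ) ≤ D.g k + (j + 1) * (U * z) := by exact_mod_cast hP₂
           linarith only [h1]
         have e3 : ((P₂ : ℝ) - D.g k) * Real.log 2 ≤ (j + 1) * U * z := by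
           have h0 : 0 ≤ ((j : ℝ) + 1) * U * z := by positivity
           calc _ ≤ (((j : ℝ) + 1) * U * z) * Real.log 2 := mul_le_mul_of_nonneg_right h2 l2.le
             _ ≤ (((j : ℝ) + 1) * U * z) * 1 := mul_le_mul_of_nonneg_left l2' h0
             _ = (j + 1) * U * z := mul_one _
         linarith only [e3]
       -- the entropy
       have m1 : CH q (fun ω => ⌊(2 : ℝ) ^ P₂ * D.rh J k ω⌋) W ≤
           CH q (fun ω => ⌊(2 : ℝ) ^ P₂ * D.rh J k ω⌋) (fun ω => (D.c (k + B) ω, D.cell J lB ω)) :=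
         CH_mono_cond hq.nonneg fun ω ω' a b h => Prod.ext (hW1 ω ω' a b h) (hW2 ω ω' a b h)
       have m2 := Pool.OCT.ch_exc hq (fun ω => ⌊(2 : ℝ) ^ P₂ * D.rh J k ω⌋)
         (fun ω => (D.c (k + B) ω, D.cell J lB ω))
         (fun x => Finset.Icc ⌊aa x - W₀⌋ ⌈aa x + W₀⌉) (fun _ => Finset.Icc ⌊0 - L₀⌋ ⌈0 + L₀⌉)
         (κ := 2 * W₀ + 3) (L := 2 * L₀ + 3) (by linarith only [hW₀1]) (by linarith only [hL₀1])
         (fun x => card_fl (by linarith only [hW₀1])) (fun _ => card_fl (by linarith only [hL₀1]))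
         (fun ω hω => mem_fl (hall ω hω))
       have m3 : Pool.KAF.Pr q {ω | ⌊(2 : ℝ) ^ P₂ * D.rh J k ω⌋ ∉
           Finset.Icc ⌊aa (D.c (k + B) ω, D.cell J lB ω) - W₀⌋
             ⌈aa (D.c (k + B) ω, D.cell J lB ω) + W₀⌉} ≤ 1 / Λ := by
         rw [Pr_eq_Pb]
         refine (Pb_mono hq.nonneg fun ω hω h => ?_).trans hPbad
         by_contra hnb
         exact h (mem_fl (hgood ω hω hnb))
       exact by
        have m4 : Real.log (2 * W₀ + 3) ≤ 2 + z + (C₁ + 3) * z := by
          have h1 : 2 * W₀ + 3 ≤ 5 * W₀ := by linarith only [hW₀1]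
          have h2 : Real.log (2 * W₀ + 3) ≤ Real.log (5 * W₀) := Real.log_le_log (by linarith only [hW₀1]) h1
          have h3 : Real.log (5 * W₀) = Real.log 5 + (Real.log (1 + 2 * B * Cl) + (C₁ + 3) * z) := by
            rw [hW₀, Real.log_mul (by norm_num) (by positivity), Real.log_mul (by positivity)
              (Real.exp_pos _).ne', Real.log_exp]
          have h4 : Real.log 5 ≤ 2 := by
            rw [Real.log_le_iff_le_exp (by norm_num)]
            have := Real.exp_one_gt_d9
            have h5 : Real.exp 2 = Real.exp 1 * Real.exp 1 := by rw [← Real.exp_add]; norm_num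
            rw [h5]
            nlinarith only [this]
          have h6 : Real.log (1 + 2 * B * Cl) ≤ 2 * B * Cl := by
            have := Real.log_le_sub_one_of_pos (show (0 : ℝ) < 1 + 2 * B * Cl by positivity)
            linarith only [this]
          linarith only [hzB, h2, h3, h4, h6]
        have m5 : Real.log (2 * L₀ + 3) ≤ Λ * z := by
          have h1 : 2 * L₀ + 3 ≤ 5 * L₀ := by linarith only [hL₀1]
          have h2 : Real.log (2 * L₀ + 3) ≤ Real.log (5 * L₀) := Real.log_le_log (by linarith only [hL₀1]) h1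
          have h3 : Real.log (5 * L₀) = Real.log 5 + ((j + 1) * U + 1) * z := by
            rw [Real.log_mul (by norm_num) (by positivity), hL₀, Real.log_exp]
          have h4 : Real.log 5 ≤ 2 := by
            rw [Real.log_le_iff_le_exp (by norm_num)]
            have := Real.exp_one_gt_d9
            have h5 : Real.exp 2 = Real.exp 1 * Real.exp 1 := by rw [← Real.exp_add]; norm_num
            rw [h5]
            nlinarith only [this]
          rw [hΛ]
          nlinarith only [hz1, h2, h3, h4]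
        have m6 : 0 ≤ Real.log (2 * L₀ + 3) := Real.log_nonneg (by linarith only [hL₀1])
        exact by
         have m7 : Pool.KAF.Pr q {ω | ⌊(2 : ℝ) ^ P₂ * D.rh J k ω⌋ ∉
             Finset.Icc ⌊aa (D.c (k + B) ω, D.cell J lB ω) - W₀⌋
               ⌈aa (D.c (k + B) ω, D.cell J lB ω) + W₀⌉} * Real.log (2 * L₀ + 3) ≤ z := by
           calc _ ≤ 1 / Λ * (Λ * z) := mul_le_mul m3 m5 m6 (by positivity)
             _ = z := by field_simp
         linarith only [hz1, l2', m1, m2, m4, m7]

end Pool.BFL.RAT
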