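import Pool.Agent.H14.BFL.Rat2
import Pool.Agent.H14.BFL.Rat4

/-!
# Row RAT of the board kbfo: the rate of the heights in a cell

`/team-store/K_BFL_helper19.md`, (5.4). The range of rows is at most `R` levels above the level `k`
(`R` is chosen before the errors).
-/

set_option autoImplicit false

namespace Pool.BFL

open Finset Real
open Pool.Agent.H49.Ent Pool.Agent.H32.Dense Pool.STK Pool.KS3

/-- Row RAT: (5.4), entropy form, with a bound `R` for the range of the rows. -/
def RATRStmt : Prop :=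
  ∀ (n K j : ℕ) (C₁ : ℝ), 1 ≤ n → 1 ≤ j → j ≤ K → 1 ≤ C₁ → ∃ (C₂ : ℝ) (U₁ : ℕ), 1 ≤ C₂ ∧
    ∀ B U R : ℕ, U₁ ≤ U → (j + 2) * U ≤ B → ∃ κ : ℝ, 0 < κ ∧ ∃ z₀ : ℕ,
    ∀ (J r w₀ z M k : ℕ) (c : ℝ) (D : Dat n) (q : D.Ω → ℝ), z₀ ≤ z →
      D.Ok K J r w₀ z M κ q → k + B ≤ M → D.Hom z B k j C₁ → 0 ≤ c → c ≤ 1 →
      ∀ P₁ P₂ : ℕ, D.g k + j * ((U - 1) * z) ≤ P₁ → P₁ ≤ P₂ → P₂ ≤ D.g k + (j + 1) * (U * z) →
      P₂ ≤ r → P₂ ≤ w₀ + (k + R) * z → D.Rate J q c (C₁ * z) P₁ P₂ →
      CH q (fun ω => ⌊(2 : ℝ) ^ P₂ * D.rh J k ω⌋) (fun ω => (D.c (k + U) ω,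
        D.cell J (w₀ + (k + B) * z) ω, ⌊(2 : ℝ) ^ P₁ * D.rh J k ω⌋)) ≤
        (1 - c) * (((P₂ : ℝ) - P₁) * Real.log 2) + C₂ * z

namespace RAT

/-- The level of the label below `P₁`. -/
theorem exists_level {w₀ z k U B P₁ : ℕ} (hz : 1 ≤ z) (hUB : U ≤ B)
    (h : w₀ + (k + U) * z ≤ P₁ + 2 * z) :
    ∃ k', k + U ≤ k' ∧ k' ≤ k + B ∧ w₀ + k' * z ≤ P₁ + 2 * z ∧
      (k' = k + B ∨ P₁ ≤ w₀ + k' * z + z) := by
  rcases lt_or_ge P₁ (w₀ + (k + U) * z) with h1 | h1
  · exact ⟨k + U, le_rfl, by omega, h, Or.inr (by omega)⟩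
  · rcases le_or_gt (w₀ + (k + B) * z) P₁ with h2 | h2
    · exact ⟨k + B, by omega, le_rfl, by omega, Or.inl rfl⟩
    · refine ⟨(P₁ - w₀) / z, ?_, ?_, ?_, Or.inr ?_⟩
      · rw [Nat.le_div_iff_mul_le hz]
        omega
      · refine Nat.le_of_lt ((Nat.div_lt_iff_lt_mul hz).2 ?_)
        omega
      · have := Nat.div_mul_le_self (P₁ - w₀) z
        omega
      · have h3 := Nat.lt_mul_div_succ (P₁ - w₀) hz
        have h4 : z * ((P₁ - w₀) / z + 1) = (P₁ - w₀) / z * z + z := by ring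
        rw [h4] at h3
        omega

end RAT

open RAT in
/-- **Row RAT.** -/
theorem rat_thm (hCMR : CMRStmt) : RATRStmt := by
  classical
  intro n K j C₁ hn hj _ hC₁
  obtain ⟨Cf, hCf, hfull⟩ := full n
  have hn1 : (1 : ℝ) ≤ n := by exact_mod_cast hn
  refine ⟨2 * Cf + 3 * C₁ + 14 * n + 50, 2, by linarith only [hC₁, hCf, hn1], ?_⟩
  intro B U R hU hB
  obtain ⟨κ₁, hκ₁, z₁, hf⟩ := hfull (R + B)
  obtain ⟨κ₂, hκ₂, z₂, htop⟩ := top hCMR n K j C₁ hn hj hC₁ B U (by omega) hB
  refine ⟨min (min κ₁ κ₂) 1, by positivity, max (max z₁ z₂) 1, ?_⟩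
  set κ : ℝ := min (min κ₁ κ₂) 1 with hκ
  intro J r w₀ z M k c D q hz hOk hkB hHom _ _ P₁ P₂ hP₁ hP₁₂ hP₂ hP₂r hP₂R hRate
  have hq := hOk.isLaw
  have hqn := hq.nonneg
  have hκ0 : 0 < κ := by positivity
  have hκ1 : κ ≤ κ₁ := (min_le_left _ _).trans (min_le_left _ _)
  have hκ2 : κ ≤ κ₂ := (min_le_left _ _).trans (min_le_right _ _)
  have hκ3 : κ ≤ 1 := min_le_right _ _
  have hz1' : z₁ ≤ z := (le_max_left _ _).trans ((le_max_left _ _).trans hz)
  have hz2' : z₂ ≤ z := (le_max_right _ _).trans ((le_max_left _ _).trans hz)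
  have hz1n : 1 ≤ z := (le_max_right _ _).trans hz
  have hz1 : (1 : ℝ) ≤ z := by exact_mod_cast hz1n
  have hκz : κ * z ≤ z := by
    calc κ * z ≤ 1 * z := mul_le_mul_of_nonneg_right hκ3 (by linarith only [hz1])
      _ = z := one_mul _
  have l2 : 0 < Real.log 2 := Real.log_pos (by norm_num)
  have l2' : Real.log 2 ≤ 1 := by linarith only [Real.log_two_lt_d9]
  have l3 : Real.log 3 ≤ 2 := by
    have h : Real.log 3 ≤ 3 - 1 := Real.log_le_sub_one_of_pos (by norm_num)
    linarith only [h]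
  have hUB : U ≤ B := by
    have : U ≤ (j + 2) * U := Nat.le_mul_of_pos_left U (by omega)
    omega
  -- levels
  exact by
   have hgk : w₀ + k * z ≤ D.g k + z := by
     have h1 := hOk.g_ge k (by omega)
     have h2 : ((w₀ + k * z : ℕ) : ℝ) ≤ ((D.g k + z : ℕ) : ℝ) := by
       push_cast at h1 ⊢
       linarith only [hκz, h1]
     exact_mod_cast h2
   have hlU : w₀ + (k + U) * z ≤ P₁ + 2 * z := by
     have h1 : (U - 1) * z ≤ j * ((U - 1) * z) := Nat.le_mul_of_pos_left _ (by omega)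
     have h2 : (U - 1) * z + z = U * z := by
       have : U = (U - 1) + 1 := by omega
       conv_rhs => rw [this]
       ring
     have h3 : w₀ + (k + U) * z = w₀ + k * z + U * z := by ring
     omega
   have hlk : w₀ + k * z ≤ P₁ := by
     have h1 : 2 * z ≤ U * z := Nat.mul_le_mul_right z hU
     have h3 : w₀ + (k + U) * z = w₀ + k * z + U * z := by ring
     omega
   obtain ⟨k', hk1, hk2, ha1, ha2⟩ := exists_level hz1n hUB hlU
   set a : ℕ := w₀ + k' * z with ha
   set lB : ℕ := w₀ + (k + B) * z with hlB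
   have haB : a ≤ lB := by
     rw [ha, hlB]
     exact Nat.add_le_add_left (Nat.mul_le_mul_right z hk2) w₀
   have hlBr : lB ≤ r := by
     refine le_trans ?_ hOk.top
     rw [hlB]
     exact Nat.add_le_add_left (Nat.mul_le_mul_right z (by omega)) w₀
   have hrJ := hOk.r_le
   set b : ℕ := max P₂ lB with hb
   exact by
    have hbr : b ≤ r := max_le hP₂r hlBr
    have hP₂b : P₂ ≤ b := le_max_left _ _
    have hlBb : lB ≤ b := le_max_right _ _
    -- the variables
    set n₁ : D.Ω → ℤ := fun ω => ⌊(2 : ℝ) ^ P₁ * D.rh J k ω⌋ with hn₁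
    set n₂ : D.Ω → ℤ := fun ω => ⌊(2 : ℝ) ^ P₂ * D.rh J k ω⌋ with hn₂
    set h₁ : D.Ω → ℤ := fun ω => ⌊(2 : ℝ) ^ P₁ * D.h ω⌋ with hh₁
    set h₂ : D.Ω → ℤ := fun ω => ⌊(2 : ℝ) ^ P₂ * D.h ω⌋ with hh₂
    have dn : ∀ ω ω', n₂ ω = n₂ ω' → n₁ ω = n₁ ω' := fun ω ω' h => floor_det _ _ hP₁₂ h
    have dcell : ∀ {u v : ℕ}, u ≤ v → ∀ ω ω', D.cell J v ω = D.cell J v ω' →
        D.cell J u ω = D.cell J u ω' := by
      intro u v huv ω ω' h
      funext i
      exact floor_det _ _ huv (congrFun h i)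
    have dcB : ∀ {x y : ℕ}, x ≤ y → y ≤ M → ∀ ω ω', 0 < q ω → 0 < q ω' → D.c y ω = D.c y ω' →
        D.c x ω = D.c x ω' := fun hxy hy ω ω' h1 h2 h => c_chain hOk hxy hy ω ω' h1 h2 h
    set W₀ : D.Ω → D.Γ × (Fin n → ℤ) × ℤ × ℕ := fun ω =>
      (D.c (k + U) ω, D.cell J a ω, n₁ ω, D.T ω) with hW₀
    set V : D.Ω → D.Γ × (Fin n → ℤ) × ℤ := fun ω => (D.c (k + U) ω, D.cell J lB ω, n₁ ω) with hV
    -- numbers
    have hh : Real.log (2 * (n * Real.exp (κ * z) + 1) + 3) ≤ (2 * n + 6) * z := by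
      have h1 : 1 ≤ Real.exp (κ * z) := by
        rw [← Real.exp_zero]
        exact Real.exp_le_exp.2 (by positivity)
      have h2 : 2 * (n * Real.exp (κ * z) + 1) + 3 ≤ (2 * n + 5) * Real.exp (κ * z) := by nlinarith only [h1]
      have h3 := Real.log_le_log (by positivity) h2
      rw [Real.log_mul (by positivity) (Real.exp_pos _).ne', Real.log_exp] at h3
      have h4 := Real.log_le_sub_one_of_pos (show (0 : ℝ) < 2 * n + 5 by positivity)
      nlinarith only [hz1, hκz, h3, h4]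
    have hlv : Real.log (2 * ((2 * n + 2) * Real.exp (3 * z)) + 3) ≤ (4 * n + 10) * z := by
      have h1 : 1 ≤ Real.exp (3 * (z : ℝ)) := by
        rw [← Real.exp_zero]
        exact Real.exp_le_exp.2 (by positivity)
      have h2 : 2 * ((2 * n + 2) * Real.exp (3 * z)) + 3 ≤ (4 * n + 7) * Real.exp (3 * z) := by
        nlinarith only [h1]
      have h3 := Real.log_le_log (by positivity) h2
      rw [Real.log_mul (by positivity) (Real.exp_pos _).ne', Real.log_exp] at h3
      have h4 := Real.log_le_sub_one_of_pos (show (0 : ℝ) < 4 * n + 7 by positivity)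
      nlinarith only [hz1, h3, h4]
    -- lower bounds
    exact by
     have L1 := CH_chain hqn (fun ω => (n₂ ω, D.cell J b ω)) (D.cell J lB) W₀
     have L1' : CH q (fun ω => ((n₂ ω, D.cell J b ω), D.cell J lB ω)) W₀ =
         CH q (fun ω => (n₂ ω, D.cell J b ω)) W₀ := by
       refine CH_congr hqn ?_ ?_ (fun _ _ _ _ h => h) (fun _ _ _ _ h => h)
       · intro ω ω' _ _ h
         simp only [Prod.mk.injEq] at h ⊢
         exact h.1.1
       · intro ω ω' _ _ h
         simp only [Prod.mk.injEq] at h ⊢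
         exact ⟨h.1, dcell hlBb ω ω' h.1.2⟩
     have L2 := CH_chain hqn (D.cell J b) n₂ (fun ω => (D.cell J lB ω, W₀ ω))
     have L2' : CH q (fun ω => (D.cell J b ω, n₂ ω)) (fun ω => (D.cell J lB ω, W₀ ω)) =
         CH q (fun ω => (n₂ ω, D.cell J b ω)) (fun ω => (D.cell J lB ω, W₀ ω)) := by
       refine CH_congr hqn ?_ ?_ (fun _ _ _ _ h => h) (fun _ _ _ _ h => h) <;>
       · intro ω ω' _ _ h
         simp only [Prod.mk.injEq] at h ⊢
         exact ⟨h.1.2, h.1.1⟩
     have L3 : ((n : ℝ) - 1) * (((lB : ℝ) - a) * Real.log 2) - Cf * z - (4 * n + 10) * z ≤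
         CH q (D.cell J lB) W₀ := by
       rcases ha2 with h | h
       · have h1 : lB = a := by rw [hlB, ha, h]
         have h2 := CH_nonneg hqn (D.cell J lB) W₀
         rw [h1, sub_self, zero_mul, mul_zero]
         rw [h1] at h2
         have h3 : 0 ≤ Cf * z := by nlinarith only [hz1, hCf]
         have h4 : 0 ≤ (4 * (n : ℝ) + 10) * z := by positivity
         linarith only [h2, h3, h4]
       · have h1 := hf K J r w₀ z M κ D q hκ0 hκ1 hz1' hOk k' (by omega) lB haB hlBr (by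
           rw [hlB]
           exact Nat.add_le_add_left (Nat.mul_le_mul_right z (by omega)) w₀)
         have h2 := CH_le_add hqn (D.cell J lB) n₁
           (fun ω => ((D.c k' ω, D.cell J a ω), D.T ω))
         have h3 := ch_lvl hOk hκ3 (k := k) (k' := k') (P := P₁) (by omega) (by omega) h
           (fun ω => ((D.c k' ω, D.cell J a ω), D.T ω)) (by
             intro ω ω' e1 e2 hw
             simp only [Prod.mk.injEq] at hw
             exact dcB (by omega) (by omega) ω ω' e1 e2 hw.1.1) (by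
             intro ω ω' e1 e2 hw
             simp only [Prod.mk.injEq] at hw
             exact hw.1.1) (by
             intro ω ω' e1 e2 hw
             simp only [Prod.mk.injEq] at hw
             exact hw.1.2)
         have h4 : CH q (D.cell J lB) (fun ω => (n₁ ω, ((D.c k' ω, D.cell J a ω), D.T ω))) ≤
             CH q (D.cell J lB) W₀ := by
           refine CH_mono_cond hqn ?_
           intro ω ω' e1 e2 hw
           simp only [Prod.mk.injEq] at hw
           simp only [hW₀, Prod.mk.injEq]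
           exact ⟨dcB hk1 (by omega) ω ω' e1 e2 hw.2.1.1, hw.2.1.2, hw.1, hw.2.2⟩
         have h5 : CH q n₁ (fun ω => ((D.c k' ω, D.cell J a ω), D.T ω)) ≤ (4 * n + 10) * z :=
           h3.trans hlv
         linarith only [hlv, h1, h2, h3, h4]
     exact by
      have hT1 : CH q (fun ω => (n₂ ω, D.T ω)) V = CH q D.T V + CH q n₂ (fun ω => (D.T ω, V ω)) :=
        CH_chain hqn n₂ D.T V
      have hT2 : CH q (fun ω => (D.T ω, n₂ ω)) V = CH q n₂ V + CH q D.T (fun ω => (n₂ ω, V ω)) :=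
        CH_chain hqn D.T n₂ V
      have hT3 : CH q (fun ω => (n₂ ω, D.T ω)) V = CH q (fun ω => (D.T ω, n₂ ω)) V := by
        refine CH_congr hqn ?_ ?_ (fun _ _ _ _ h => h) (fun _ _ _ _ h => h) <;>
        · intro ω ω' _ _ h
          simp only [Prod.mk.injEq] at h ⊢
          exact ⟨h.1.2, h.1.1⟩
      have hT4 : CH q n₂ (fun ω => (D.T ω, V ω)) ≤ CH q n₂ (fun ω => (D.cell J lB ω, W₀ ω)) := by
        refine CH_mono_cond hqn ?_
        intro ω ω' _ _ h
        simp only [hV, hW₀, Prod.mk.injEq] at h ⊢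
        exact ⟨h.2.2.1, h.2.1, dcell haB ω ω' h.2.2.1, h.2.2.2, h.1⟩
      have hT5 : CH q D.T V ≤ ((J : ℝ) - lB) * Real.log 2 := by
        have h1 := ch_T_le hq D.T (J - lB) V (by
          intro ω ω' _ _ h
          simp only [hV, Prod.mk.injEq] at h
          have h2 := congrFun h.2.1 D.i₀
          rw [cell_time hOk.A_i₀ hOk.E_i₀ (hlBr.trans hrJ), cell_time hOk.A_i₀ hOk.E_i₀
            (hlBr.trans hrJ)] at h2
          exact_mod_cast h2)
        rw [Nat.cast_sub (hlBr.trans hrJ)] at h1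
        exact h1
      have htB := htop J r w₀ z M k κ D q hκ2 hz2' hOk hkB hHom P₂ hP₂
      have hT6 : ((J : ℝ) - lB) * Real.log 2 - κ * z - n * Real.log 3 - (C₁ + 10) * z ≤
          CH q D.T (fun ω => (n₂ ω, V ω)) := by
        have b1 := time_wn hq D.T D.ln hOk.T_lt (hlBr.trans hrJ) hOk.time
        have b2 := CH_le_add hqn D.T (D.cell J lB) (fun ω => (D.ln ω, D.T ω / 2 ^ (J - lB)))
        have b3 : CH q (D.cell J lB) (fun ω => (D.ln ω, D.T ω / 2 ^ (J - lB))) ≤ n * Real.log 3 :=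
          cell_wn (J := J) hq hOk.E_le (hlBr.trans hrJ)
        have b4 : CH q D.T (fun ω => (D.cell J lB ω, (D.ln ω, D.T ω / 2 ^ (J - lB)))) ≤
            CH q D.T (fun ω => (D.c (k + B) ω, D.cell J lB ω)) := by
          refine CH_mono_cond hqn ?_
          intro ω ω' e1 e2 h
          exact Prod.ext (hOk.c_wn (k + B) hkB ω ω' e1 e2 (Prod.ext_iff.1 h).2) (Prod.ext_iff.1 h).1
        have b5 := CH_le_add hqn D.T n₂ (fun ω => (D.c (k + B) ω, D.cell J lB ω))
        have b6 : CH q n₂ (fun ω => (D.c (k + B) ω, D.cell J lB ω)) ≤ (C₁ + 10) * z :=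
          htB _ _ (fun ω ω' _ _ h => (Prod.ext_iff.1 h).1) (fun ω ω' _ _ h => (Prod.ext_iff.1 h).2)
        have b7 : CH q D.T (fun ω => (n₂ ω, (D.c (k + B) ω, D.cell J lB ω))) ≤
            CH q D.T (fun ω => (n₂ ω, V ω)) := by
          refine CH_mono_cond hqn ?_
          intro ω ω' e1 e2 h
          simp only [Prod.mk.injEq] at h
          simp only [hV, Prod.mk.injEq]
          exact ⟨h.1, dcB (by omega) hkB ω ω' e1 e2 h.2.1, h.2.2, dn ω ω' h.1⟩
        linarith only [b1, b2, b3, b4, b5, b6, b7]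
      exact by
       have L5 : ((n : ℝ) - 1) * (((b : ℝ) - lB) * Real.log 2) - Cf * z - (C₁ + 10) * z ≤
           CH q (D.cell J b) (fun ω => (n₂ ω, (D.cell J lB ω, W₀ ω))) := by
         rcases le_or_gt P₂ lB with h | h
         · have h1 : b = lB := max_eq_right h
           have h2 := CH_nonneg hqn (D.cell J b) (fun ω => (n₂ ω, (D.cell J lB ω, W₀ ω)))
           rw [h1] at h2 ⊢
           rw [sub_self, zero_mul, mul_zero]
           have h3 : 0 ≤ Cf * z := by nlinarith only [hz1, hCf]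
           have h4 : 0 ≤ (C₁ + 10) * z := by nlinarith only [hz1, hC₁]
           linarith only [h2, h3, h4]
         · have h1 : b = P₂ := max_eq_left h.le
           have h2 := hf K J r w₀ z M κ D q hκ0 hκ1 hz1' hOk (k + B) hkB P₂ h.le hP₂r (by
             refine hP₂R.trans (Nat.add_le_add_left (Nat.mul_le_mul_right z (by omega)) w₀))
           have h3 := CH_le_add hqn (D.cell J P₂) n₂
             (fun ω => ((D.c (k + B) ω, D.cell J lB ω), D.T ω))
           have h4 : CH q n₂ (fun ω => ((D.c (k + B) ω, D.cell J lB ω), D.T ω)) ≤ (C₁ + 10) * z :=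
             htB _ _ (fun ω ω' _ _ h => by
               simp only [Prod.mk.injEq] at h
               exact h.1.1) (fun ω ω' _ _ h => by
               simp only [Prod.mk.injEq] at h
               exact h.1.2)
           have h5 : CH q (D.cell J P₂)
               (fun ω => (n₂ ω, ((D.c (k + B) ω, D.cell J lB ω), D.T ω))) ≤
               CH q (D.cell J P₂) (fun ω => (n₂ ω, (D.cell J lB ω, W₀ ω))) := by
             refine CH_mono_cond hqn ?_
             intro ω ω' e1 e2 hw
             simp only [Prod.mk.injEq] at hw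
             simp only [hW₀, Prod.mk.injEq]
             exact ⟨hw.1, hw.2.1.2, dcB (by omega) hkB ω ω' e1 e2 hw.2.1.1,
               dcell haB ω ω' hw.2.1.2, dn ω ω' hw.1, hw.2.2⟩
           rw [h1]
           linarith only [h2, h3, h4, h5]
       -- upper bounds
       exact by
        have U1 := CH_le_add hqn (fun ω => (n₂ ω, D.cell J b ω)) (D.cell J P₁) W₀
        have U2 : CH q (D.cell J P₁) W₀ ≤
            ((n : ℝ) - 1) * (((P₁ : ℝ) - a) * Real.log 2) + 2 * n * z := by
          have h0 : CH q (D.cell J P₁) W₀ ≤ CH q (D.cell J P₁) (fun ω => (D.cell J a ω, D.T ω)) := by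
            refine CH_mono_cond hqn ?_
            intro ω ω' _ _ h
            simp only [hW₀, Prod.mk.injEq] at h ⊢
            exact ⟨h.2.1, h.2.2.2⟩
          have hn' : 0 ≤ (n : ℝ) - 1 := by linarith only [hn1]
          rcases le_or_gt a P₁ with h | h
          · have h1 := cells_le hq hn hOk.A_i₀ hOk.E_i₀ (J := J) h (by omega)
            have h2 : 0 ≤ 2 * (n : ℝ) * z := by positivity
            linarith only [h0, h1, h2]
          · have h1 : CH q (D.cell J P₁) (fun ω => (D.cell J a ω, D.T ω)) = 0 :=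
              CH_eq_zero hqn fun ω ω' _ _ hw => dcell h.le ω ω' (Prod.ext_iff.1 hw).1
            have h2 : -(2 * z : ℝ) ≤ (P₁ : ℝ) - a := by
              have : (a : ℝ) ≤ P₁ + 2 * z := by exact_mod_cast ha1
              linarith only [this]
            have h3 : -(2 * z : ℝ) ≤ ((P₁ : ℝ) - a) * Real.log 2 := by
              have h5 : (P₁ : ℝ) - a ≤ 0 := by
                have : (P₁ : ℝ) ≤ a := by exact_mod_cast h.le
                linarith only [this]
              nlinarith only [l2', l2, h2]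
            have h4 := mul_le_mul_of_nonneg_left h3 hn'
            nlinarith only [hz1, h0, h1, h4]
        have U3 := CH_le_add hqn (fun ω => (n₂ ω, D.cell J b ω)) h₁ (fun ω => (D.cell J P₁ ω, W₀ ω))
        have U3' : CH q h₁ (fun ω => (D.cell J P₁ ω, W₀ ω)) ≤ (2 * n + 6) * z := by
          refine le_trans (ch_h hOk (by omega) hlk _ ?_ ?_ ?_) hh
          · intro ω ω' e1 e2 h
            simp only [hW₀, Prod.mk.injEq] at h
            exact dcB (by omega) (by omega) ω ω' e1 e2 h.2.1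
          · intro ω ω' _ _ h
            exact (Prod.ext_iff.1 h).1
          · intro ω ω' _ _ h
            simp only [hW₀, Prod.mk.injEq] at h
            exact h.2.2.2.1
        exact by
         have U4 := CH_le_add hqn (fun ω => (n₂ ω, D.cell J b ω)) (D.XY J P₂)
           (fun ω => (h₁ ω, (D.cell J P₁ ω, W₀ ω)))
         have U5 : CH q (D.XY J P₂) (fun ω => (h₁ ω, (D.cell J P₁ ω, W₀ ω))) ≤
             (n - c) * (((P₂ : ℝ) - P₁) * Real.log 2) + C₁ * z := by
           refine le_trans (CH_mono_cond hqn ?_) hRate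
           intro ω ω' _ _ h
           simp only [hW₀, Prod.mk.injEq] at h
           show ((D.cell J P₁ ω, h₁ ω), D.T ω) = ((D.cell J P₁ ω', h₁ ω'), D.T ω')
           rw [h.1, h.2.1, h.2.2.2.2.2]
         have U6 := CH_subadd hqn n₂ (D.cell J b)
           (fun ω => (D.XY J P₂ ω, (h₁ ω, (D.cell J P₁ ω, W₀ ω))))
         have U7 : CH q n₂ (fun ω => (D.XY J P₂ ω, (h₁ ω, (D.cell J P₁ ω, W₀ ω)))) ≤
             (2 * n + 6) * z := by
           refine le_trans (ch_rh hOk (by omega) (hlk.trans hP₁₂) _ ?_ ?_ ?_) hh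
           · intro ω ω' e1 e2 h
             simp only [hW₀, Prod.mk.injEq] at h
             exact dcB (by omega) (by omega) ω ω' e1 e2 h.2.2.2.1
           · intro ω ω' _ _ h
             have h1 : D.XY J P₂ ω = D.XY J P₂ ω' := (Prod.ext_iff.1 h).1
             exact (Prod.ext_iff.1 h1).1
           · intro ω ω' _ _ h
             have h1 : D.XY J P₂ ω = D.XY J P₂ ω' := (Prod.ext_iff.1 h).1
             exact (Prod.ext_iff.1 h1).2
         have U8 : CH q (D.cell J b) (fun ω => (D.XY J P₂ ω, (h₁ ω, (D.cell J P₁ ω, W₀ ω)))) ≤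
             ((n : ℝ) - 1) * (((b : ℝ) - P₂) * Real.log 2) := by
           refine le_trans (CH_mono_cond hqn (W := fun ω => (D.cell J P₂ ω, D.T ω)) ?_)
             (cells_le hq hn hOk.A_i₀ hOk.E_i₀ (J := J) hP₂b (hbr.trans hrJ))
           intro ω ω' _ _ h
           have h1 : D.XY J P₂ ω = D.XY J P₂ ω' := (Prod.ext_iff.1 h).1
           have h2 : D.cell J P₂ ω = D.cell J P₂ ω' := (Prod.ext_iff.1 h1).1
           simp only [hW₀, Prod.mk.injEq] at h
           exact Prod.ext h2 h.2.2.2.2.2.2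
         exact by
          have hn3 : (n : ℝ) * Real.log 3 ≤ 2 * n * z := by nlinarith only [hz1, l3]
          have eid : ((n : ℝ) - 1) * (((P₁ : ℝ) - a) * Real.log 2) +
              (n - c) * (((P₂ : ℝ) - P₁) * Real.log 2) +
              ((n : ℝ) - 1) * (((b : ℝ) - P₂) * Real.log 2) -
              ((n : ℝ) - 1) * (((lB : ℝ) - a) * Real.log 2) -
              ((n : ℝ) - 1) * (((b : ℝ) - lB) * Real.log 2) =
              (1 - c) * (((P₂ : ℝ) - P₁) * Real.log 2) := by ring
          have hnz : 0 ≤ (n : ℝ) * z := by positivity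
          show CH q n₂ V ≤ _
          linarith only [hz1, hκz, L1, L1', L2, L2', L3, hT1, hT2, hT3, hT4, hT5, hT6, L5, U1, U2, U3, U3', U4, U5, U6, U7, U8, hn3, hnz]

end Pool.BFL
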