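import Pool.Agent.H19.BFL.Stmts3
import Pool.Agent.H45.KAL.MKC
import Pool.Agent.H14.OC.Qnt

/-!
# Row RAT of the board kbfo, part 1: times, cells, and the fullness of the cells
-/

set_option autoImplicit false

namespace Pool.BFL.RAT

open Finset Real
open Pool.Agent.H49.Ent Pool.Agent.H32.Dense Pool.STK Pool.KS3

section gen

variable {Ω S S' : Type} [Fintype Ω] {q : Ω → ℝ}

theorem ch_T_le (hq : IsLaw q) (T : Ω → ℕ) (m : ℕ) (W : Ω → S)
    (h : Det q W (fun ω => T ω / 2 ^ m)) : CH q T W ≤ m * Real.log 2 := by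
  classical
  have h1 := CH_mono_cond hq.nonneg (X := T) (W' := W) (W := fun ω => T ω / 2 ^ m) h
  refine h1.trans ?_
  have h2 := CH_le_card hq.nonneg hq.sum_one T (fun ω => T ω / 2 ^ m)
    (fun t => Finset.Ico (2 ^ m * t) (2 ^ m * (t + 1))) (fun ω _ => by
      rw [Finset.mem_Ico]
      have h3 : 0 < 2 ^ m := by positivity
      constructor
      · exact Nat.mul_div_le _ _
      · exact Nat.lt_mul_div_succ _ h3)
  refine h2.trans ?_
  have h4 : (fun ω => Real.log ((Finset.Ico (2 ^ m * (T ω / 2 ^ m))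
      (2 ^ m * (T ω / 2 ^ m + 1))).card : ℝ)) = fun _ => m * Real.log 2 := by
    funext ω
    rw [Nat.card_Ico]
    have : 2 ^ m * (T ω / 2 ^ m + 1) - 2 ^ m * (T ω / 2 ^ m) = 2 ^ m := by
      rw [mul_add, mul_one, Nat.add_sub_cancel_left]
    rw [this]
    push_cast
    rw [Real.log_pow]
  rw [h4, Ex_const hq.sum_one]

theorem ch_div_le (hq : IsLaw q) (T : Ω → ℕ) (m v : ℕ) (hT : ∀ ω, T ω < 2 ^ (v + m)) (W : Ω → S) :
    CH q (fun ω => T ω / 2 ^ m) W ≤ v * Real.log 2 := by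
  classical
  have h2 := CH_le_card hq.nonneg hq.sum_one (fun ω => T ω / 2 ^ m) W
    (fun _ => Finset.range (2 ^ v)) (fun ω _ => by
      rw [Finset.mem_range]
      refine Nat.div_lt_of_lt_mul ?_
      rw [← pow_add, add_comm]
      exact hT ω)
  refine h2.trans ?_
  have h4 : (fun _ : Ω => Real.log ((Finset.range (2 ^ v)).card : ℝ)) =
      fun _ => v * Real.log 2 := by
    funext ω
    rw [Finset.card_range]
    push_cast
    rw [Real.log_pow]
  rw [h4, Ex_const hq.sum_one]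

/-- The digits of the time after `v`, given the line and the first digits. -/
theorem time_wn (hq : IsLaw q) (T : Ω → ℕ) (l : Ω → S) {J v : ℕ} (hT : ∀ ω, T ω < 2 ^ J)
    (hv : v ≤ J) {θ : ℝ} (h : J * Real.log 2 - θ ≤ CH q T l) :
    ((J : ℝ) - v) * Real.log 2 - θ ≤ CH q T (fun ω => (l ω, T ω / 2 ^ (J - v))) := by
  have h1 := CH_le_add hq.nonneg T (fun ω => T ω / 2 ^ (J - v)) l
  have h2 := ch_div_le hq T (J - v) v (by rw [Nat.add_sub_cancel' hv]; exact hT) l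
  have h3 := CH_mono_cond hq.nonneg (X := T) (W' := fun ω => (T ω / 2 ^ (J - v), l ω))
    (W := fun ω => (l ω, T ω / 2 ^ (J - v))) (fun ω ω' _ _ hh => by
      simp only [Prod.mk.injEq] at hh ⊢
      exact ⟨hh.2, hh.1⟩)
  linarith

/-- The digits of the time between `u` and `v`. -/
theorem time_dig (hq : IsLaw q) (T : Ω → ℕ) (l : Ω → S) {J u v : ℕ} (hT : ∀ ω, T ω < 2 ^ J)
    (huv : u ≤ v) (hv : v ≤ J) {θ : ℝ} (h : J * Real.log 2 - θ ≤ CH q T l) :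
    ((v : ℝ) - u) * Real.log 2 - θ ≤
      CH q (fun ω => T ω / 2 ^ (J - v) % 2 ^ (v - u)) (fun ω => (l ω, T ω / 2 ^ (J - u))) := by
  have h1 := time_wn hq T l hT (huv.trans hv) h
  have h2 := CH_le_add hq.nonneg T (fun ω => T ω / 2 ^ (J - v) % 2 ^ (v - u))
    (fun ω => (l ω, T ω / 2 ^ (J - u)))
  have h3 := ch_T_le hq T (J - v)
    (fun ω => (T ω / 2 ^ (J - v) % 2 ^ (v - u), (l ω, T ω / 2 ^ (J - u)))) (by
      intro ω ω' _ _ hh
      simp only [Prod.mk.injEq] at hh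
      have e : ∀ ω, T ω / 2 ^ (J - v) / 2 ^ (v - u) = T ω / 2 ^ (J - u) := by
        intro ω
        rw [Nat.div_div_eq_div_mul, ← pow_add]
        congr 2
        omega
      show T ω / 2 ^ (J - v) = T ω' / 2 ^ (J - v)
      rw [← Nat.div_add_mod (T ω / 2 ^ (J - v)) (2 ^ (v - u)),
        ← Nat.div_add_mod (T ω' / 2 ^ (J - v)) (2 ^ (v - u)), e, e, hh.1, hh.2.2])
  rw [Nat.cast_sub hv] at h3
  linarith

end gen

/-! ### cells -/

theorem floor_pre (x : ℝ) (i k : ℕ) :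
    ⌊(2 : ℝ) ^ i * x⌋ = ⌊(2 : ℝ) ^ (i + k) * x⌋ / 2 ^ k := by
  have h : (2 : ℝ) ^ i * x = ((2 : ℝ) ^ (i + k) * x) / ((2 ^ k : ℕ) : ℝ) := by
    rw [pow_add]
    push_cast
    field_simp
  rw [h, Int.floor_div_natCast]
  push_cast
  rfl

theorem floor_mem (x : ℝ) (i k : ℕ) :
    ⌊(2 : ℝ) ^ (i + k) * x⌋ ∈ Finset.Ico (2 ^ k * ⌊(2 : ℝ) ^ i * x⌋)
      (2 ^ k * (⌊(2 : ℝ) ^ i * x⌋ + 1)) := by
  have h := floor_pre x i k
  have h2 : (0 : ℤ) < 2 ^ k := by positivity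
  generalize ⌊(2 : ℝ) ^ (i + k) * x⌋ = a at h ⊢
  rw [h]
  refine Finset.mem_Ico.mpr ⟨?_, ?_⟩
  · rw [mul_comm]
    exact Int.ediv_mul_le _ h2.ne'
  · rw [mul_comm]
    exact Int.lt_ediv_add_one_mul_self _ h2

theorem card_blk (k : ℕ) (t : ℤ) :
    (Finset.Ico (2 ^ k * t) (2 ^ k * (t + 1))).card = 2 ^ k := by
  rw [Int.card_Ico]
  have : (2 ^ k * (t + 1) - 2 ^ k * t : ℤ) = ((2 ^ k : ℕ) : ℤ) := by
    push_cast
    ring
  rw [this, Int.toNat_natCast]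

variable {n : ℕ} {D : Dat n} {q : D.Ω → ℝ} {J : ℕ}

theorem cell_det (q : D.Ω → ℝ) {u v : ℕ} (huv : u ≤ v) : Det q (D.cell J v) (D.cell J u) := by
  intro ω ω' _ _ h
  obtain ⟨k, rfl⟩ := Nat.exists_eq_add_of_le huv
  funext i
  have h1 : ⌊(2 : ℝ) ^ (u + k) * D.Y J ω i⌋ = ⌊(2 : ℝ) ^ (u + k) * D.Y J ω' i⌋ := congrFun h i
  show ⌊(2 : ℝ) ^ u * D.Y J ω i⌋ = ⌊(2 : ℝ) ^ u * D.Y J ω' i⌋
  rw [floor_pre _ u k, floor_pre _ u k, h1]

theorem floor_det (x y : ℝ) {u v : ℕ} (huv : u ≤ v) (h : ⌊(2 : ℝ) ^ v * x⌋ = ⌊(2 : ℝ) ^ v * y⌋) :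
    ⌊(2 : ℝ) ^ u * x⌋ = ⌊(2 : ℝ) ^ u * y⌋ := by
  obtain ⟨k, rfl⟩ := Nat.exists_eq_add_of_le huv
  rw [floor_pre _ u k, floor_pre _ u k, h]

/-- The time coordinate of a cell. -/
theorem cell_time (hA : ∀ l, D.A l D.i₀ = 0) (hE : ∀ l, D.E l D.i₀ = 1) {v : ℕ} (hv : v ≤ J)
    (ω : D.Ω) : D.cell J v ω D.i₀ = ((D.T ω / 2 ^ (J - v) : ℕ) : ℤ) := by
  unfold Dat.cell Dat.Y
  rw [hA, hE, zero_add, mul_one]
  have h1 : (2 : ℝ) ^ v * ((D.T ω : ℝ) / 2 ^ J) = (D.T ω : ℝ) / ((2 ^ (J - v) : ℕ) : ℝ) := by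
    have h2 : (2 : ℝ) ^ J = 2 ^ v * 2 ^ (J - v) := by rw [← pow_add, Nat.add_sub_cancel' hv]
    rw [h2]
    push_cast
    field_simp
  rw [h1, Int.floor_div_natCast, Int.floor_natCast]
  push_cast
  rfl

/-- The cells given the window. -/
theorem cell_wn (hq : IsLaw q) (hE : ∀ l i, |D.E l i| ≤ 1) {v : ℕ} (hv : v ≤ J) :
    CH q (D.cell J v) (D.wn J v) ≤ n * Real.log 3 := by
  have h := CH_le_vec hq.nonneg hq.sum_one (D.cell J v) (D.wn J v) (fun _ => 1) (by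
    intro ω ω' _ _ hw i
    have h1 : D.ln ω = D.ln ω' := (Prod.ext_iff.1 hw).1
    have h2 : D.T ω / 2 ^ (J - v) = D.T ω' / 2 ^ (J - v) := (Prod.ext_iff.1 hw).2
    have h3 : |(D.T ω : ℝ) - D.T ω'| ≤ 2 ^ (J - v) := by
      have hp : 0 < 2 ^ (J - v) := by positivity
      have a1 := Nat.div_add_mod (D.T ω) (2 ^ (J - v))
      have a2 := Nat.div_add_mod (D.T ω') (2 ^ (J - v))
      have a3 := Nat.mod_lt (D.T ω) hp
      have a4 := Nat.mod_lt (D.T ω') hp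
      rw [h2] at a1
      have a5 : (D.T ω : ℤ) - D.T ω' ≤ 2 ^ (J - v) := by
        have : (D.T ω : ℤ) ≤ D.T ω' + 2 ^ (J - v) := by exact_mod_cast (by omega)
        linarith
      have a6 : (D.T ω' : ℤ) - D.T ω ≤ 2 ^ (J - v) := by
        have : (D.T ω' : ℤ) ≤ D.T ω + 2 ^ (J - v) := by exact_mod_cast (by omega)
        linarith
      rw [abs_le]
      have a7 : (D.T ω : ℝ) - D.T ω' ≤ 2 ^ (J - v) := by exact_mod_cast a5
      have a8 : (D.T ω' : ℝ) - D.T ω ≤ 2 ^ (J - v) := by exact_mod_cast a6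
      constructor <;> linarith
    have h4 : |(2 : ℝ) ^ v * D.Y J ω i - 2 ^ v * D.Y J ω' i| ≤ 1 := by
      unfold Dat.Y
      rw [h1]
      have e : (2 : ℝ) ^ v * (D.A (D.ln ω') i + (D.T ω : ℝ) / 2 ^ J * D.E (D.ln ω') i) -
          2 ^ v * (D.A (D.ln ω') i + (D.T ω' : ℝ) / 2 ^ J * D.E (D.ln ω') i) =
          (((D.T ω : ℝ) - D.T ω') / 2 ^ (J - v)) * D.E (D.ln ω') i := by
        have h2 : (2 : ℝ) ^ J = 2 ^ v * 2 ^ (J - v) := by rw [← pow_add, Nat.add_sub_cancel' hv]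
        rw [h2]
        field_simp
        ring
      rw [e, abs_mul, abs_div, abs_of_pos (show (0 : ℝ) < 2 ^ (J - v) by positivity)]
      have h5 : |(D.T ω : ℝ) - D.T ω'| / 2 ^ (J - v) ≤ 1 := by
        rw [div_le_one (by positivity)]
        exact h3
      calc |(D.T ω : ℝ) - D.T ω'| / 2 ^ (J - v) * |D.E (D.ln ω') i| ≤ 1 * 1 :=
            mul_le_mul h5 (hE _ _) (abs_nonneg _) zero_le_one
        _ = 1 := one_mul 1
    have h5 := abs_sub_le_iff.1 h4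
    have h6 : D.cell J v ω i ≤ D.cell J v ω' i + 1 := by
      show ⌊(2 : ℝ) ^ v * D.Y J ω i⌋ ≤ ⌊(2 : ℝ) ^ v * D.Y J ω' i⌋ + 1
      rw [← Int.floor_add_one]
      exact Int.floor_le_floor (by linarith [h5.1])
    have h7 : D.cell J v ω' i ≤ D.cell J v ω i + 1 := by
      show ⌊(2 : ℝ) ^ v * D.Y J ω' i⌋ ≤ ⌊(2 : ℝ) ^ v * D.Y J ω i⌋ + 1
      rw [← Int.floor_add_one]
      exact Int.floor_le_floor (by linarith [h5.2])
    rw [abs_le]
    push_cast
    have h8 : (D.cell J v ω i : ℝ) ≤ D.cell J v ω' i + 1 := by exact_mod_cast h6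
    have h9 : (D.cell J v ω' i : ℝ) ≤ D.cell J v ω i + 1 := by exact_mod_cast h7
    constructor <;> linarith)
  refine h.trans ?_
  have e : (fun _ : D.Ω => Real.log (2 * (1 : ℝ) + 1)) = fun _ => Real.log 3 := by
    funext _
    norm_num
  rw [e, Ex_const hq.sum_one]

/-- The finer cells given the coarse cells and the time. -/
theorem cells_le (hq : IsLaw q) (hn : 1 ≤ n) (hA : ∀ l, D.A l D.i₀ = 0)
    (hE : ∀ l, D.E l D.i₀ = 1) {u v : ℕ} (huv : u ≤ v) (hv : v ≤ J) :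
    CH q (D.cell J v) (fun ω => (D.cell J u ω, D.T ω)) ≤
      ((n : ℝ) - 1) * (((v : ℝ) - u) * Real.log 2) := by
  classical
  obtain ⟨k, rfl⟩ := Nat.exists_eq_add_of_le huv
  have h := CH_le_card hq.nonneg hq.sum_one (D.cell J (u + k)) (fun ω => (D.cell J u ω, D.T ω))
    (fun x => Fintype.piFinset fun i => if i = D.i₀ then
      {((x.2 / 2 ^ (J - (u + k)) : ℕ) : ℤ)} else
      Finset.Ico (2 ^ k * x.1 i) (2 ^ k * (x.1 i + 1))) (fun ω _ => by
      rw [Fintype.mem_piFinset]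
      intro i
      by_cases hi : i = D.i₀
      · rw [if_pos hi, hi, Finset.mem_singleton]
        exact cell_time hA hE hv ω
      · rw [if_neg hi]
        exact floor_mem _ u k)
  refine h.trans ?_
  have e : (fun ω : D.Ω => Real.log ((Fintype.piFinset fun i => if i = D.i₀ then
      {((D.T ω / 2 ^ (J - (u + k)) : ℕ) : ℤ)} else
      Finset.Ico (2 ^ k * D.cell J u ω i) (2 ^ k * (D.cell J u ω i + 1))).card : ℝ)) =
      fun _ => ((n : ℝ) - 1) * (k * Real.log 2) := by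
    funext ω
    rw [Fintype.card_piFinset]
    have e1 : ∀ i, (if i = D.i₀ then {((D.T ω / 2 ^ (J - (u + k)) : ℕ) : ℤ)} else
        Finset.Ico (2 ^ k * D.cell J u ω i) (2 ^ k * (D.cell J u ω i + 1))).card =
        if i = D.i₀ then 1 else 2 ^ k := by
      intro i
      by_cases hi : i = D.i₀
      · rw [if_pos hi, if_pos hi, Finset.card_singleton]
      · rw [if_neg hi, if_neg hi, card_blk]
    rw [Finset.prod_congr rfl fun i _ => e1 i,
      ← Finset.mul_prod_erase univ _ (Finset.mem_univ D.i₀), if_pos rfl, one_mul]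
    have e2 : ∏ i ∈ univ.erase D.i₀, (if i = D.i₀ then 1 else 2 ^ k) = (2 ^ k) ^ (n - 1) := by
      rw [Finset.prod_congr rfl (g := fun _ => 2 ^ k) fun i hi =>
        if_neg (Finset.ne_of_mem_erase hi), Finset.prod_const,
        Finset.card_erase_of_mem (Finset.mem_univ _), Finset.card_univ, Fintype.card_fin]
    rw [e2]
    push_cast
    rw [Real.log_pow, Real.log_pow, Nat.cast_sub hn]
    push_cast
    ring
  rw [e, Ex_const hq.sum_one]
  push_cast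
  linarith

end Pool.BFL.RAT
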