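import Pool.Agent.H14.BFL.Rat1

/-!
# Row RAT of the board kbfo, part 2: the cells are full given a label and the time
-/

set_option autoImplicit false

namespace Pool.BFL.RAT

open Finset Real
open Pool.Agent.H49.Ent Pool.Agent.H32.Dense Pool.STK Pool.KS3

/-- **Fullness of the cells.** -/
theorem full (n : ℕ) : ∃ C : ℝ, 1 ≤ C ∧ ∀ R : ℕ, ∃ κ₀ : ℝ, 0 < κ₀ ∧ ∃ z₀ : ℕ,
    ∀ (K J r w₀ z M : ℕ) (κ : ℝ) (D : Dat n) (q : D.Ω → ℝ), 0 < κ → κ ≤ κ₀ → z₀ ≤ z →
      D.Ok K J r w₀ z M κ q → ∀ k ≤ M, ∀ v : ℕ, w₀ + k * z ≤ v → v ≤ r → v ≤ w₀ + (k + R) * z →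
      ((n : ℝ) - 1) * (((v : ℝ) - (w₀ + k * z : ℕ)) * Real.log 2) - C * z ≤
        CH q (D.cell J v) (fun ω => ((D.c k ω, D.cell J (w₀ + k * z) ω), D.T ω)) := by
  classical
  obtain ⟨Cm, hCm, hm⟩ := Pool.KS3.mkc_thm n 2 (by norm_num)
  have hl2 : 0 < Real.log 2 := Real.log_pos (by norm_num)
  have hl2' : 1 / 2 < Real.log 2 := by linarith only [hl2, Real.log_two_gt_d9]
  have hl3 : Real.log 3 ≤ 2 := by
    have h : Real.log 3 ≤ 3 - 1 := Real.log_le_sub_one_of_pos (by norm_num)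
    linarith
  have hn0 : (0 : ℝ) ≤ n := Nat.cast_nonneg n
  refine ⟨6 * Cm + 2 + 2 * (n * (n + 1)), by nlinarith only [hCm], fun R => ?_⟩
  refine ⟨min (1 / ((R : ℝ) + 1)) (1 / (2 * ((n : ℝ) + 1))), by positivity,
    n.factorial * 2 ^ n + R + 1, ?_⟩
  intro K J r w₀ z M κ D q hκ hκ₀ hz hOk k hk v huv hvr hvR
  have hq := hOk.isLaw
  set u : ℕ := w₀ + k * z with hu
  obtain ⟨L, rfl⟩ := Nat.exists_eq_add_of_le huv
  have hvJ : u + L ≤ J := hvr.trans hOk.r_le
  have huJ : u ≤ J := by omega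
  have hκ1 : κ ≤ 1 / ((R : ℝ) + 1) := hκ₀.trans (min_le_left _ _)
  have hκ2 : κ ≤ 1 / (2 * ((n : ℝ) + 1)) := hκ₀.trans (min_le_right _ _)
  have hzR : (R : ℝ) + 1 ≤ z := by exact_mod_cast (by omega : R + 1 ≤ z)
  have hzg : ((n.factorial * 2 ^ n : ℕ) : ℝ) ≤ z := by
    exact_mod_cast (by omega : n.factorial * 2 ^ n ≤ z)
  have hR0 : (0 : ℝ) ≤ R := Nat.cast_nonneg R
  have hz1 : (1 : ℝ) ≤ z := by linarith only [hzR]
  have hLR : (L : ℝ) ≤ R * z := by
    have h : L ≤ R * z := by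
      have : u + L ≤ u + R * z := by
        rw [hu]
        calc w₀ + k * z + L ≤ w₀ + (k + R) * z := hvR
          _ = w₀ + k * z + R * z := by ring
      omega
    exact_mod_cast h
  obtain ⟨e, he0, heE, hnc⟩ := hOk.nc
  -- the variables
  set Y' : D.Ω → Fin n → ℕ := fun ω i =>
    (D.cell J (u + L) ω i - 2 ^ L * D.cell J u ω i).toNat with hY'
  set T' : D.Ω → ℕ := fun ω => D.T ω / 2 ^ (J - (u + L)) % 2 ^ L with hT'
  set W : D.Ω → D.Γ × (Fin n → ℤ) := fun ω => (D.c k ω, D.cell J u ω) with hW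
  set l' : D.Ω → (D.Λ × ℕ) × (Fin n → ℤ) := fun ω =>
    ((D.ln ω, D.T ω / 2 ^ (J - u)), D.cell J u ω) with hl'
  have hnn : ∀ ω i, 0 ≤ D.cell J (u + L) ω i - 2 ^ L * D.cell J u ω i := by
    intro ω i
    have h := Finset.mem_Ico.1 (floor_mem (D.Y J ω i) u L)
    have h1 : 2 ^ L * D.cell J u ω i ≤ D.cell J (u + L) ω i := h.1
    linarith only [h1]
  have hYr : ∀ ω i, (Y' ω i : ℝ) = D.cell J (u + L) ω i - 2 ^ L * D.cell J u ω i := by
    intro ω i
    have h : ((Y' ω i : ℕ) : ℤ) = D.cell J (u + L) ω i - 2 ^ L * D.cell J u ω i :=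
      Int.toNat_of_nonneg (hnn ω i)
    have h2 : (((Y' ω i : ℕ) : ℤ) : ℝ) =
        ((D.cell J (u + L) ω i - 2 ^ L * D.cell J u ω i : ℤ) : ℝ) := by rw [h]
    push_cast at h2
    exact h2
  have hJu : ∀ ω, D.T ω / 2 ^ (J - (u + L)) / 2 ^ L = D.T ω / 2 ^ (J - u) := by
    intro ω
    rw [Nat.div_div_eq_div_mul, ← pow_add]
    congr 2
    omega
  have hdetv : Det q D.pt (D.cell J (u + L)) := by
    intro ω ω' a b h
    exact cell_det q hvr ω ω' a b (hOk.pt_Y ω ω' a b h)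
  have hdetu : Det q D.pt (D.cell J u) := by
    intro ω ω' a b h
    exact cell_det q (Nat.le_add_right u L) ω ω' a b (hdetv ω ω' a b h)
  have key := hm D.Ω (D.Γ × (Fin n → ℤ)) ((D.Λ × ℕ) × (Fin n → ℤ)) D.Z q L (R + 1)
    (z + n.factorial * 2 ^ n) (Real.exp (-(κ * z))) κ D.pt e Y' T' W l'
    (fun l i => 2 ^ u * D.A l.1.1 i + l.1.2 * D.E l.1.1 i - l.2 i) (fun l i => D.E l.1.1 i) hq
    (fun ω => Nat.mod_lt _ (by positivity))
    (by
      intro ω ω' a b h
      funext i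
      simp only [hY']
      rw [congrFun (hdetv ω ω' a b h) i, congrFun (hdetu ω ω' a b h) i])
    (by
      intro ω ω' a b h
      have h1 : D.T ω = D.T ω' := hOk.pt_T ω ω' a b h
      simp only [hT']
      rw [h1])
    (by
      intro ω ω' a b h
      exact Prod.ext (hOk.c_pt k hk ω ω' a b h) (hdetu ω ω' a b h))
    (by
      intro ω _ i
      rw [hYr]
      have hP : (0 : ℝ) < 2 ^ L := by positivity
      have e1 : (2 : ℝ) ^ J = 2 ^ u * (2 ^ L * 2 ^ (J - (u + L))) := by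
        rw [← pow_add, ← pow_add]
        congr 1
        omega
      -- the coordinate
      have h1 : |(D.cell J (u + L) ω i : ℝ) - 2 ^ (u + L) * D.Y J ω i| ≤ 1 := by
        have a1 := Int.floor_le ((2 : ℝ) ^ (u + L) * D.Y J ω i)
        have a2 := Int.lt_floor_add_one ((2 : ℝ) ^ (u + L) * D.Y J ω i)
        have a3 : (D.cell J (u + L) ω i : ℝ) = (⌊(2 : ℝ) ^ (u + L) * D.Y J ω i⌋ : ℝ) := rfl
        rw [a3, abs_le]
        constructor <;> linarith
      -- the time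
      have h2 : |(D.T ω : ℝ) / 2 ^ (J - (u + L)) -
          (2 ^ L * ((D.T ω / 2 ^ (J - u) : ℕ) : ℝ) + (T' ω : ℝ))| ≤ 1 := by
        have a1 : (2 ^ L * ((D.T ω / 2 ^ (J - u) : ℕ) : ℝ) + (T' ω : ℝ)) =
            ((D.T ω / 2 ^ (J - (u + L)) : ℕ) : ℝ) := by
          have a2 := Nat.div_add_mod (D.T ω / 2 ^ (J - (u + L))) (2 ^ L)
          rw [hJu ω] at a2
          have a3 : ((2 ^ L * (D.T ω / 2 ^ (J - u)) +
            D.T ω / 2 ^ (J - (u + L)) % 2 ^ L : ℕ) : ℝ) =
            ((D.T ω / 2 ^ (J - (u + L)) : ℕ) : ℝ) := by rw [a2]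
          rw [← a3]
          push_cast
          rfl
        rw [a1]
        have a4 : ((D.T ω / 2 ^ (J - (u + L)) : ℕ) : ℝ) ≤ (D.T ω : ℝ) / 2 ^ (J - (u + L)) := by
          have := @Nat.cast_div_le ℝ _ _ _ (D.T ω) (2 ^ (J - (u + L)))
          push_cast at this ⊢
          exact this
        have a5 : (D.T ω : ℝ) / 2 ^ (J - (u + L)) <
            ((D.T ω / 2 ^ (J - (u + L)) : ℕ) : ℝ) + 1 := by
          rw [div_lt_iff₀ (by positivity)]
          have a6 := Nat.lt_mul_div_succ (D.T ω) (show 0 < 2 ^ (J - (u + L)) by positivity)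
          have a7 : (D.T ω : ℝ) < ((2 ^ (J - (u + L)) *
            (D.T ω / 2 ^ (J - (u + L)) + 1) : ℕ) : ℝ) := by exact_mod_cast a6
          push_cast at a7
          push_cast
          linarith only [a7]
        rw [abs_le]
        constructor <;> linarith
      have e2 : ((D.cell J (u + L) ω i : ℝ) - 2 ^ L * D.cell J u ω i) / 2 ^ L -
          (2 ^ u * D.A (l' ω).1.1 i + ((l' ω).1.2 : ℝ) * D.E (l' ω).1.1 i - ((l' ω).2 i : ℝ) +
            (T' ω : ℝ) / 2 ^ L * D.E (l' ω).1.1 i) =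
          ((D.cell J (u + L) ω i : ℝ) - 2 ^ (u + L) * D.Y J ω i) / 2 ^ L +
            ((D.T ω : ℝ) / 2 ^ (J - (u + L)) -
              (2 ^ L * ((D.T ω / 2 ^ (J - u) : ℕ) : ℝ) + (T' ω : ℝ))) / 2 ^ L *
              D.E (D.ln ω) i := by
        simp only [hl']
        unfold Dat.Y
        rw [e1, pow_add]
        field_simp
        ring
      rw [e2]
      have h3 := hOk.E_le (D.ln ω) i
      calc |((D.cell J (u + L) ω i : ℝ) - 2 ^ (u + L) * D.Y J ω i) / 2 ^ L +
            ((D.T ω : ℝ) / 2 ^ (J - (u + L)) -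
              (2 ^ L * ((D.T ω / 2 ^ (J - u) : ℕ) : ℝ) + (T' ω : ℝ))) / 2 ^ L *
              D.E (D.ln ω) i| ≤ 1 / 2 ^ L + 1 / 2 ^ L * 1 := by
            refine (abs_add_le _ _).trans (add_le_add ?_ ?_)
            · rw [abs_div, abs_of_pos hP]
              exact div_le_div_of_nonneg_right h1 hP.le
            · rw [abs_mul, abs_div, abs_of_pos hP]
              exact mul_le_mul (div_le_div_of_nonneg_right h2 hP.le) h3 (abs_nonneg _)
                (by positivity)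
        _ = 2 / 2 ^ L := by ring)
    (by
      intro ω i
      exact (hOk.E_le _ _).trans (by norm_num))
    (Real.exp_pos _) he0 heE
    (by
      intro ω hω uu huu
      have h := hnc ω hω uu huu
      unfold Pb at h
      refine le_trans (le_of_eq (Finset.sum_congr rfl fun w _ => ?_)) h
      congr)
    (by
      have h1 : Real.exp (-(κ * z)) ^ n = Real.exp (-(n * κ * z)) := by
        rw [← Real.exp_nat_mul]
        congr 1
        ring
      have h2 : (2 : ℝ) ^ (z + n.factorial * 2 ^ n) =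
          Real.exp (z * Real.log 2) * 2 ^ (n.factorial * 2 ^ n) := by
        rw [pow_add]
        congr 1
        rw [← Real.log_pow, Real.exp_log (by positivity)]
      rw [h1, h2, ← mul_assoc, ← Real.exp_add]
      have h3 : (n.factorial : ℝ) * 2 ^ n ≤ 2 ^ (n.factorial * 2 ^ n) := by
        have : n.factorial * 2 ^ n < 2 ^ (n.factorial * 2 ^ n) := Nat.lt_two_pow_self
        exact_mod_cast this.le
      have h4 : 1 ≤ Real.exp (-(n * κ * z) + z * Real.log 2) := by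
        rw [← Real.exp_zero]
        refine Real.exp_le_exp.2 ?_
        have h5 : n * κ ≤ 1 / 2 := by
          calc n * κ ≤ n * (1 / (2 * ((n : ℝ) + 1))) := mul_le_mul_of_nonneg_left hκ2 hn0
            _ = (n / (n + 1)) / 2 := by field_simp
            _ ≤ 1 / 2 := by
              have : (n : ℝ) / (n + 1) ≤ 1 := by
                rw [div_le_one (by positivity)]
                linarith only
              linarith only [this]
        have h6 : n * κ * z ≤ 1 / 2 * z := mul_le_mul_of_nonneg_right h5 (by linarith only [hzR])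
        nlinarith only [h6, hl2']
      calc (n.factorial : ℝ) * 2 ^ n ≤ 1 * 2 ^ (n.factorial * 2 ^ n) := by rw [one_mul]; exact h3
        _ ≤ _ := mul_le_mul_of_nonneg_right h4 (by positivity))
    (by omega)
  -- the entropies
  have c1 : CH q Y' W ≤ CH q (D.cell J (u + L)) W := by
    refine CH_mono_left hq.nonneg ?_
    intro ω ω' _ _ h
    simp only [hW, Prod.mk.injEq] at h
    funext i
    simp only [hY']
    rw [h.1, h.2.2]
  have hwn : ∀ x ≤ J, u ≤ x → Det q (fun ω => (D.ln ω, D.T ω / 2 ^ (J - x))) (D.wn J u) := by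
    intro x hx hux ω ω' _ _ h
    simp only [Prod.mk.injEq] at h
    have e2 : J - u = (J - x) + (x - u) := by omega
    refine Prod.ext h.1 ?_
    show D.T ω / 2 ^ (J - u) = D.T ω' / 2 ^ (J - u)
    rw [e2, pow_add, ← Nat.div_div_eq_div_mul, ← Nat.div_div_eq_div_mul, h.2]
  have c2 : (L : ℝ) * Real.log 2 - κ * z - n * Real.log 3 ≤ CH q T' (fun ω => (l' ω, W ω)) := by
    have a1 := time_dig hq D.T D.ln hOk.T_lt (Nat.le_add_right u L) hvJ hOk.time
    rw [Nat.add_sub_cancel_left] at a1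
    have a2 := CH_le_add hq.nonneg T' (D.cell J u) (fun ω => (D.ln ω, D.T ω / 2 ^ (J - u)))
    have a3 := cell_wn (J := J) hq hOk.E_le huJ
    have a4 : CH q T' (fun ω => (D.cell J u ω, (D.ln ω, D.T ω / 2 ^ (J - u)))) ≤
        CH q T' (fun ω => (l' ω, W ω)) := by
      refine CH_mono_cond hq.nonneg ?_
      intro ω ω' a b h
      have h1 : D.cell J u ω = D.cell J u ω' := (Prod.ext_iff.1 h).1
      have h2 : (D.ln ω, D.T ω / 2 ^ (J - u)) = (D.ln ω', D.T ω' / 2 ^ (J - u)) :=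
        (Prod.ext_iff.1 h).2
      have h3 := hOk.c_wn k hk ω ω' a b h2
      simp only [hl', hW, Prod.mk.injEq] at h2 ⊢
      exact ⟨⟨h2, h1⟩, h3, h1⟩
    have a5 : ((u + L : ℕ) : ℝ) - u = L := by push_cast; ring
    rw [a5] at a1
    have a6 : CH q (D.cell J u) (fun ω => (D.ln ω, D.T ω / 2 ^ (J - u))) ≤ n * Real.log 3 := a3
    linarith only [a1, a2, a4, a6]
  have c3 : ((J : ℝ) - (u + L)) * Real.log 2 - κ * z - n * Real.log 3 ≤
      CH q D.T (fun ω => (D.cell J (u + L) ω, W ω)) := by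
    have a1 := time_wn hq D.T D.ln hOk.T_lt hvJ hOk.time
    have a2 := CH_le_add hq.nonneg D.T (D.cell J (u + L))
      (fun ω => (D.ln ω, D.T ω / 2 ^ (J - (u + L))))
    have a3 : CH q (D.cell J (u + L)) (fun ω => (D.ln ω, D.T ω / 2 ^ (J - (u + L)))) ≤
        n * Real.log 3 := cell_wn (J := J) hq hOk.E_le hvJ
    have a4 : CH q D.T (fun ω => (D.cell J (u + L) ω, (D.ln ω, D.T ω / 2 ^ (J - (u + L))))) ≤
        CH q D.T (fun ω => (D.cell J (u + L) ω, W ω)) := by
      refine CH_mono_cond hq.nonneg ?_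
      intro ω ω' a b h
      have h1 : D.cell J (u + L) ω = D.cell J (u + L) ω' := (Prod.ext_iff.1 h).1
      have h2 := hwn (u + L) hvJ (Nat.le_add_right u L) ω ω' a b (Prod.ext_iff.1 h).2
      have h3 := hOk.c_wn k hk ω ω' a b h2
      have h4 := cell_det q (Nat.le_add_right u L) ω ω' a b h1
      exact Prod.ext h1 (Prod.ext h3 h4)
    push_cast at a1
    linarith only [a2, a3, a4, a1]
  have c4 : CH q D.T W ≤ ((J : ℝ) - u) * Real.log 2 := by
    have := ch_T_le hq D.T (J - u) W (fun ω ω' a b h =>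
      hOk.c_T k hk ω ω' a b (Prod.ext_iff.1 h).1)
    rw [Nat.cast_sub huJ] at this
    exact this
  have c5 := CH_chain hq.nonneg D.T (D.cell J (u + L)) W
  have c6 := CH_chain hq.nonneg (D.cell J (u + L)) D.T W
  have c7 : CH q (fun ω => (D.T ω, D.cell J (u + L) ω)) W =
      CH q (fun ω => (D.cell J (u + L) ω, D.T ω)) W := by
    refine CH_congr hq.nonneg ?_ ?_ (fun _ _ _ _ h => h) (fun _ _ _ _ h => h) <;>
    · intro ω ω' _ _ h
      simp only [Prod.mk.injEq] at h ⊢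
      exact ⟨h.1.2, h.1.1⟩
  have c8 : CH q (D.cell J (u + L)) (fun ω => (D.T ω, W ω)) =
      CH q (D.cell J (u + L)) (fun ω => (W ω, D.T ω)) := by
    refine CH_congr hq.nonneg ?_ ?_ ?_ ?_ <;>
    · intro ω ω' _ _ h
      simp only [Prod.mk.injEq] at h ⊢
      tauto
  have c9 : (((R + 1 : ℕ) : ℝ)) = (R : ℝ) + 1 := by push_cast; ring
  have d1 : (L : ℝ) / ((R + 1 : ℕ) : ℝ) ≤ z := by
    rw [c9, div_le_iff₀ (by positivity)]
    nlinarith only [hzR, hLR]
  have d2 : κ * L ≤ z := by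
    calc κ * L ≤ 1 / ((R : ℝ) + 1) * (R * z) :=
          mul_le_mul hκ1 hLR (Nat.cast_nonneg L) (by positivity)
      _ = (R / (R + 1)) * z := by ring
      _ ≤ 1 * z := by
        refine mul_le_mul_of_nonneg_right ?_ (by linarith only [hzR])
        rw [div_le_one (by positivity)]
        linarith only
      _ = z := one_mul _
  have d3 : ((z + n.factorial * 2 ^ n : ℕ) : ℝ) ≤ 2 * z := by
    rw [Nat.cast_add]
    linarith only [hzg]
  have d4 : Cm * ((L : ℝ) / ((R + 1 : ℕ) : ℝ) + ((z + n.factorial * 2 ^ n : ℕ) : ℝ) +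
      ((R + 1 : ℕ) : ℝ) + 1 + κ * L) ≤ Cm * (6 * z) := by
    refine mul_le_mul_of_nonneg_left ?_ hCm
    rw [c9] at d1 ⊢
    linarith only [hzR, d1, d2, d3]
  have d5 : ((n : ℝ) + 1) * (κ * z) ≤ z := by
    have : ((n : ℝ) + 1) * κ ≤ 1 := by
      calc ((n : ℝ) + 1) * κ ≤ (n + 1) * (1 / (2 * ((n : ℝ) + 1))) :=
            mul_le_mul_of_nonneg_left hκ2 (by linarith only)
        _ = 1 / 2 := by field_simp
        _ ≤ 1 := by norm_num
    calc ((n : ℝ) + 1) * (κ * z) = (((n : ℝ) + 1) * κ) * z := by ring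
      _ ≤ 1 * z := mul_le_mul_of_nonneg_right this (by linarith only [hzR])
      _ = z := one_mul _
  have d6 : (n : ℝ) * (n + 1) * Real.log 3 ≤ 2 * (n * (n + 1)) * z := by
    have : 0 ≤ (n : ℝ) * (n + 1) := by positivity
    nlinarith only [this, hl3, hzR]
  have d7 : (n : ℝ) * ((L : ℝ) * Real.log 2 - κ * z - n * Real.log 3) ≤
      n * CH q T' (fun ω => (l' ω, W ω)) := mul_le_mul_of_nonneg_left c2 hn0
  have d8 : (((u + L : ℕ) : ℝ) - (u : ℕ)) = L := by push_cast; ring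
  have d9 := key.trans (add_le_add c1 d4)
  rw [d8]
  have d10 : CH q (D.cell J (u + L)) (fun ω => ((D.c k ω, D.cell J u ω), D.T ω)) =
    CH q (D.cell J (u + L)) (fun ω => (W ω, D.T ω)) := rfl
  rw [d10]
  nlinarith only [hzR, key, c1, c3, c4, c5, c6, c7, c8, d4, d5, d6, d7]

end Pool.BFL.RAT
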