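import Pool.Agent.H14.BFL.Rat1
import Pool.Agent.H1.BFL.JTB
import Pool.Agent.H4.BFL.JTE
import Pool.Agent.H39.BFL.Alg
import Pool.Agent.H70.OC.Tel

/-!
# Row RAT of the board kbfo, part 3: the heights given the labels and the cells
-/

set_option autoImplicit false

namespace Pool.BFL.RAT

open Finset Real
open Pool.Agent.H49.Ent Pool.Agent.H32.Dense Pool.STK Pool.KS3

/-! ### polynomials -/

/-- Mean value inequality. -/
theorem mvt {n : ℕ} (F : Pl n) (y b : Fin n → ℝ) {ρ G : ℝ} (hb : ∀ i, |b i - y i| ≤ ρ)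
    (hG : ∀ x : Fin n → ℝ, (∀ i, |x i - y i| ≤ ρ) →
      ∀ i, |MvPolynomial.eval x (MvPolynomial.pderiv i F)| ≤ G) :
    |MvPolynomial.eval b F - MvPolynomial.eval y F| ≤ n * (ρ * G) := by
  have h := norm_image_sub_le_of_norm_deriv_le_segment_01'
    (f := fun t : ℝ => (ln F y (fun i => b i - y i)).eval t)
    (f' := fun t : ℝ => ((ln F y (fun i => b i - y i)).derivative).eval t) (C := n * (ρ * G))
    (fun t _ => ((ln F y (fun i => b i - y i)).hasDerivAt t).hasDerivWithinAt)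
    (fun t ht => by
      rw [ln_derivative, Polynomial.eval_finsetSum, Real.norm_eq_abs]
      refine (Finset.abs_sum_le_sum_abs _ _).trans ?_
      have h1 : ∀ i ∈ (Finset.univ : Finset (Fin n)),
          |(Polynomial.C (b i - y i) *
            ln (MvPolynomial.pderiv i F) y (fun i => b i - y i)).eval t| ≤ ρ * G := by
        intro i _
        rw [Polynomial.eval_mul, Polynomial.eval_C, ln_eval, abs_mul]
        have h2 : ∀ l, |y l + (b l - y l) * t - y l| ≤ ρ := by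
          intro l
          have h3 : y l + (b l - y l) * t - y l = (b l - y l) * t := by ring
          rw [h3, abs_mul, abs_of_nonneg ht.1]
          calc |b l - y l| * t ≤ |b l - y l| * 1 :=
                mul_le_mul_of_nonneg_left ht.2.le (abs_nonneg _)
            _ ≤ ρ := by rw [mul_one]; exact hb l
        exact mul_le_mul (hb i) (hG _ h2 i) (abs_nonneg _) ((abs_nonneg _).trans (hb i))
      refine (Finset.sum_le_sum h1).trans ?_
      rw [Finset.sum_const, Finset.card_univ, Fintype.card_fin, nsmul_eq_mul])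
  rw [Real.norm_eq_abs] at h
  simp only [ln_eval] at h
  have e1 : (fun i => y i + (b i - y i) * 1) = b := by
    funext i
    ring
  have e2 : (fun i => y i + (b i - y i) * 0) = y := by
    funext i
    ring
  rw [e1, e2] at h
  exact h

/-- A polynomial bounded on a cube varies little on a small cube. -/
theorem lipJ (n K : ℕ) : ∃ C : ℝ, 1 ≤ C ∧ ∀ (F : Pl n) (y : Fin n → ℝ) (r ρ S : ℝ),
    F.totalDegree ≤ K → 0 < r → r ≤ ρ →
    (∀ b : Fin n → ℝ, (∀ i, |b i - y i| ≤ ρ) → |MvPolynomial.eval b F| ≤ S) →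
    ∀ b : Fin n → ℝ, (∀ i, |b i - y i| ≤ r) →
      |MvPolynomial.eval b F - MvPolynomial.eval y F| ≤ C * S * (r / ρ) := by
  obtain ⟨C₁, hC₁, h1⟩ := Pool.Agent.H1.BFL.jtb_thm n K
  obtain ⟨C₂, hC₂, h2⟩ := jte_thm n K
  refine ⟨2 * C₁ * C₂, by nlinarith, ?_⟩
  intro F y r ρ S hF hr hrρ hS b hb
  have hρ : 0 < ρ := hr.trans_le hrρ
  have hS0 : |MvPolynomial.eval y F| ≤ S := hS y fun i => by
    rw [sub_self, abs_zero]
    exact hρ.le
  have hS1 : 0 ≤ S := (abs_nonneg _).trans hS0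
  set G : Pl n := F - MvPolynomial.C (MvPolynomial.eval y F) with hG
  have hGe : ∀ x, MvPolynomial.eval x G = MvPolynomial.eval x F - MvPolynomial.eval y F := by
    intro x
    rw [hG, map_sub, MvPolynomial.eval_C]
  have hGd : G.totalDegree ≤ K := by
    refine (MvPolynomial.totalDegree_sub _ _).trans (max_le hF ?_)
    rw [MvPolynomial.totalDegree_C]
    exact Nat.zero_le _
  have h3 := h1 G y ρ (2 * S) hGd hρ (fun x hx => by
    rw [hGe]
    refine (abs_sub _ _).trans ?_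
    have := hS x hx
    linarith)
  have h4 := h2 G y r (C₁ * (2 * S) * (r / ρ)) hGd hr (by positivity) (fun i _ => by
    rcases Nat.eq_zero_or_pos i with h0 | h0
    · subst h0
      have h5 : jt 0 G y = 0 := by
        unfold jt
        rw [MvPolynomial.homogeneousComponent_zero]
        have h6 : MvPolynomial.coeff 0 (sh y G) = MvPolynomial.eval (fun _ => 0) (sh y G) := by
          rw [← MvPolynomial.constantCoeff_eq]
          have := MvPolynomial.eval_zero' (σ := Fin n) (R := ℝ)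
          rw [this]
        rw [h6, eval_sh, hGe]
        simp
      rw [h5]
      intro k
      rw [MvPolynomial.coeff_zero, abs_zero]
      positivity
    · intro k
      refine (h3 i k).trans ?_
      have h7 : (r / ρ) ^ i ≤ r / ρ := by
        calc (r / ρ) ^ i ≤ (r / ρ) ^ 1 := pow_le_pow_of_le_one (by positivity)
              ((div_le_one hρ).2 hrρ) h0
          _ = r / ρ := pow_one _
      have h8 : C₁ * (2 * S) / ρ ^ i = C₁ * (2 * S) * ((r / ρ) ^ i) / r ^ i := by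
        rw [div_pow]
        field_simp
      rw [h8]
      exact div_le_div_of_nonneg_right (mul_le_mul_of_nonneg_left h7 (by positivity))
        (by positivity)) b hb
  rw [hGe] at h4
  refine h4.trans (le_of_eq ?_)
  ring

/-! ### powers -/

theorem pow_div (a b : ℕ) : (2 : ℝ) ^ a / 2 ^ b = Real.exp (((a : ℝ) - b) * Real.log 2) := by
  have h1 : ∀ m : ℕ, (2 : ℝ) ^ m = Real.exp (m * Real.log 2) := by
    intro m
    rw [← Real.log_pow, Real.exp_log (by positivity)]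
  rw [h1, h1, ← Real.exp_sub]
  congr 1
  ring

/-! ### floors -/

section fl

variable {Ω S S' : Type} [Fintype Ω] {q : Ω → ℝ}

/-- The integer part of a number which varies little. -/
theorem ch_floor (hq : IsLaw q) (f : Ω → ℝ) (W : Ω → S) {b : ℝ}
    (h : ∀ ω ω', 0 < q ω → 0 < q ω' → W ω = W ω' → |f ω - f ω'| ≤ b) :
    CH q (fun ω => ⌊f ω⌋) W ≤ Real.log (2 * b + 3) := by
  have h1 := CH_le_int hq.nonneg hq.sum_one (fun ω => ⌊f ω⌋) W (fun _ => b + 1) (by
    intro ω ω' a a' hw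
    have h2 := abs_le.1 (h ω ω' a a' hw)
    have a1 := Int.floor_le (f ω)
    have a2 := Int.lt_floor_add_one (f ω)
    have a3 := Int.floor_le (f ω')
    have a4 := Int.lt_floor_add_one (f ω')
    push_cast
    rw [abs_le]
    constructor <;> linarith [h2.1, h2.2])
  refine h1.trans ?_
  have e : (fun _ : Ω => Real.log (2 * (b + 1) + 1)) = fun _ => Real.log (2 * b + 3) := by
    funext _
    congr 1
    ring
  rw [e, Ex_const hq.sum_one]

theorem det_fun [Nonempty S'] {X : Ω → S} {Y : Ω → S'} (h : Det q X Y) :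
    ∃ f : S → S', ∀ ω, 0 < q ω → Y ω = f (X ω) := by
  classical
  refine ⟨fun x => if hx : ∃ ω, 0 < q ω ∧ X ω = x then Y hx.choose else Classical.arbitrary _, ?_⟩
  intro ω hω
  have hx : ∃ ω', 0 < q ω' ∧ X ω' = X ω := ⟨ω, hω, rfl⟩
  simp only [dif_pos hx]
  exact h _ _ hω hx.choose_spec.1 hx.choose_spec.2.symm

theorem Pb_mono (hq : ∀ ω, 0 ≤ q ω) {A A' : Ω → Prop} (h : ∀ ω, 0 < q ω → A ω → A' ω) :
    Pb q A ≤ Pb q A' := by
  classical
  unfold Pb
  refine Finset.sum_le_sum fun ω _ => ?_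
  rcases (hq ω).eq_or_lt with h0 | h0
  · rw [← h0]
    split_ifs <;> exact le_rfl
  · by_cases h1 : A ω
    · rw [if_pos h1, if_pos (h ω h0 h1)]
    · rw [if_neg h1]
      split_ifs
      exacts [hq ω, le_rfl]

theorem Pb_union (hq : ∀ ω, 0 ≤ q ω) (A : ℕ → Ω → Prop) (B : ℕ) :
    Pb q (fun ω => ∃ v < B, A v ω) ≤ ∑ v ∈ range B, Pb q (A v) := by
  classical
  unfold Pb
  rw [Finset.sum_comm]
  refine Finset.sum_le_sum fun ω _ => ?_
  by_cases h : ∃ v < B, A v ω
  · rw [if_pos h]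
    obtain ⟨v, hv, hA⟩ := h
    have h1 := Finset.single_le_sum (f := fun v => if A v ω then q ω else 0)
      (fun v _ => by split_ifs; exacts [hq ω, le_rfl]) (Finset.mem_range.2 hv)
    simp only [if_pos hA] at h1
    exact h1
  · rw [if_neg h]
    exact Finset.sum_nonneg fun v _ => by split_ifs; exacts [hq ω, le_rfl]

theorem Pr_eq_Pb (E : Set Ω) : Pool.KAF.Pr q E = Pb q (fun ω => ω ∈ E) := by
  classical
  rw [Pool.OC.QNT.Pr_sum]
  unfold Pb
  refine Finset.sum_congr rfl fun ω _ => ?_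
  congr

end fl

/-! ### monotonicity in the error -/

theorem ok_mono {n K J r w₀ z M : ℕ} {D : Dat n} {q : D.Ω → ℝ} {κ κ' : ℝ} (h : κ ≤ κ')
    (hOk : D.Ok K J r w₀ z M κ q) : D.Ok K J r w₀ z M κ' q := by
  have hz : (0 : ℝ) ≤ z := Nat.cast_nonneg z
  have h1 : κ * z ≤ κ' * z := mul_le_mul_of_nonneg_right h hz
  have h2 : Real.exp (κ * z) ≤ Real.exp (κ' * z) := Real.exp_le_exp.2 h1
  obtain ⟨e, he0, heE, hnc⟩ := hOk.nc
  refine { hOk with
    time := by linarith [hOk.time]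
    y₀_near := fun k hk ω hω i => (hOk.y₀_near k hk ω hω i).trans
      (div_le_div_of_nonneg_right h2 (by positivity))
    F_hgt := fun k hk ω hω => (hOk.F_hgt k hk ω hω).trans
      (div_le_div_of_nonneg_right h2 (by positivity))
    F_grad := fun k hk ω hω b hb i => (hOk.F_grad k hk ω hω b hb i).trans h2
    g_ge := fun k hk => by linarith [hOk.g_ge k hk]
    nc := ⟨e, he0, heE.trans h, fun ω hω u hu => ?_⟩ }
  refine le_trans ?_ (hnc ω hω u hu)
  refine Pb_mono hOk.isLaw.nonneg fun ω' _ hh => ⟨hh.1, hh.2.trans ?_⟩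
  exact Real.exp_le_exp.2 (by linarith)

/-! ### heights, sheets and cells -/

variable {n : ℕ} {D : Dat n} {q : D.Ω → ℝ} {J : ℕ}

theorem cell_near {P : ℕ} {ω ω' : D.Ω} (h : D.cell J P ω = D.cell J P ω') (i : Fin n) :
    |D.Y J ω' i - D.Y J ω i| ≤ 1 / 2 ^ P := by
  have h1 : ⌊(2 : ℝ) ^ P * D.Y J ω i⌋ = ⌊(2 : ℝ) ^ P * D.Y J ω' i⌋ := congrFun h i
  have a1 := Int.floor_le ((2 : ℝ) ^ P * D.Y J ω i)
  have a2 := Int.lt_floor_add_one ((2 : ℝ) ^ P * D.Y J ω i)
  have a3 := Int.floor_le ((2 : ℝ) ^ P * D.Y J ω' i)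
  have a4 := Int.lt_floor_add_one ((2 : ℝ) ^ P * D.Y J ω' i)
  rw [h1] at a1 a2
  have hP : (0 : ℝ) < 2 ^ P := by positivity
  rw [le_div_iff₀ hP]
  have e : |D.Y J ω' i - D.Y J ω i| * 2 ^ P = |2 ^ P * D.Y J ω' i - 2 ^ P * D.Y J ω i| := by
    rw [← mul_sub, abs_mul, abs_of_pos hP, mul_comm]
  rw [e, abs_le]
  constructor <;> linarith

/-- The sheet on a small cell. -/
theorem sheet_near {K r w₀ z M : ℕ} {κ : ℝ} (hOk : D.Ok K J r w₀ z M κ q) {k : ℕ} (hk : k ≤ M)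
    {ω : D.Ω} (hω : 0 < q ω) {ρ : ℝ} (hρ : ρ ≤ 1 / 2 ^ (w₀ + k * z)) {b : Fin n → ℝ}
    (hb : ∀ i, |b i - D.Y J ω i| ≤ ρ) :
    |MvPolynomial.eval b (D.F k (D.c k ω)) -
      MvPolynomial.eval (D.Y J ω) (D.F k (D.c k ω))| ≤ n * (ρ * Real.exp (κ * z)) :=
  mvt _ _ _ hb fun x hx i => hOk.F_grad k hk ω hω x (fun i => (hx i).trans hρ) i

/-- Difference of relative heights and heights on a cell. -/
theorem rh_near {K r w₀ z M : ℕ} {κ : ℝ} (hOk : D.Ok K J r w₀ z M κ q) {k P : ℕ} (hk : k ≤ M)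
    (hP : w₀ + k * z ≤ P) {ω ω' : D.Ω} (hω : 0 < q ω) (hc : D.c k ω = D.c k ω')
    (hcell : D.cell J P ω = D.cell J P ω') :
    |(2 : ℝ) ^ P * (D.h ω - D.h ω') - 2 ^ P * (D.rh J k ω - D.rh J k ω')| ≤
      n * Real.exp (κ * z) := by
  have hP' : (0 : ℝ) < 2 ^ P := by positivity
  have h1 := sheet_near hOk hk hω (ρ := 1 / 2 ^ P)
    (by
      refine one_div_le_one_div_of_le (by positivity) ?_
      exact pow_le_pow_right₀ (by norm_num) hP) (b := D.Y J ω') (cell_near hcell)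
  have e : (2 : ℝ) ^ P * (D.h ω - D.h ω') - 2 ^ P * (D.rh J k ω - D.rh J k ω') =
      -(2 ^ P * (MvPolynomial.eval (D.Y J ω') (D.F k (D.c k ω)) -
        MvPolynomial.eval (D.Y J ω) (D.F k (D.c k ω)))) := by
    unfold Dat.rh
    rw [← hc]
    ring
  rw [e, abs_neg, abs_mul, abs_of_pos hP']
  calc (2 : ℝ) ^ P * |MvPolynomial.eval (D.Y J ω') (D.F k (D.c k ω)) -
        MvPolynomial.eval (D.Y J ω) (D.F k (D.c k ω))| ≤
      2 ^ P * (n * (1 / 2 ^ P * Real.exp (κ * z))) := mul_le_mul_of_nonneg_left h1 hP'.le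
    _ = n * Real.exp (κ * z) := by field_simp

/-- The height from the relative height. -/
theorem ch_h {K r w₀ z M : ℕ} {κ : ℝ} (hOk : D.Ok K J r w₀ z M κ q) {k P : ℕ} (hk : k ≤ M)
    (hP : w₀ + k * z ≤ P) {S : Type} (W : D.Ω → S) (h1 : Det q W (D.c k))
    (h2 : Det q W (D.cell J P)) (h3 : Det q W (fun ω => ⌊(2 : ℝ) ^ P * D.rh J k ω⌋)) :
    CH q (fun ω => ⌊(2 : ℝ) ^ P * D.h ω⌋) W ≤
      Real.log (2 * (n * Real.exp (κ * z) + 1) + 3) := by
  refine ch_floor hOk.isLaw (fun ω => (2 : ℝ) ^ P * D.h ω) W ?_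
  intro ω ω' hω hω' hW
  have a1 := rh_near hOk hk hP hω (h1 ω ω' hω hω' hW) (h2 ω ω' hω hω' hW)
  have a2 : ⌊(2 : ℝ) ^ P * D.rh J k ω⌋ = ⌊(2 : ℝ) ^ P * D.rh J k ω'⌋ := h3 ω ω' hω hω' hW
  have b1 := Int.floor_le ((2 : ℝ) ^ P * D.rh J k ω)
  have b2 := Int.lt_floor_add_one ((2 : ℝ) ^ P * D.rh J k ω)
  have b3 := Int.floor_le ((2 : ℝ) ^ P * D.rh J k ω')
  have b4 := Int.lt_floor_add_one ((2 : ℝ) ^ P * D.rh J k ω')
  rw [a2] at b1 b2
  rw [abs_le] at a1 ⊢
  constructor <;> nlinarith [a1.1, a1.2]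

/-- The relative height from the height. -/
theorem ch_rh {K r w₀ z M : ℕ} {κ : ℝ} (hOk : D.Ok K J r w₀ z M κ q) {k P : ℕ} (hk : k ≤ M)
    (hP : w₀ + k * z ≤ P) {S : Type} (W : D.Ω → S) (h1 : Det q W (D.c k))
    (h2 : Det q W (D.cell J P)) (h3 : Det q W (fun ω => ⌊(2 : ℝ) ^ P * D.h ω⌋)) :
    CH q (fun ω => ⌊(2 : ℝ) ^ P * D.rh J k ω⌋) W ≤
      Real.log (2 * (n * Real.exp (κ * z) + 1) + 3) := by
  refine ch_floor hOk.isLaw (fun ω => (2 : ℝ) ^ P * D.rh J k ω) W ?_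
  intro ω ω' hω hω' hW
  have a1 := rh_near hOk hk hP hω (h1 ω ω' hω hω' hW) (h2 ω ω' hω hω' hW)
  have a2 : ⌊(2 : ℝ) ^ P * D.h ω⌋ = ⌊(2 : ℝ) ^ P * D.h ω'⌋ := h3 ω ω' hω hω' hW
  have b1 := Int.floor_le ((2 : ℝ) ^ P * D.h ω)
  have b2 := Int.lt_floor_add_one ((2 : ℝ) ^ P * D.h ω)
  have b3 := Int.floor_le ((2 : ℝ) ^ P * D.h ω')
  have b4 := Int.lt_floor_add_one ((2 : ℝ) ^ P * D.h ω')
  rw [a2] at b1 b2
  rw [abs_le] at a1 ⊢
  constructor <;> nlinarith [a1.1, a1.2]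

/-- The relative height over a coarser sheet, at the level of the label. -/
theorem ch_lvl {K r w₀ z M : ℕ} {κ : ℝ} (hOk : D.Ok K J r w₀ z M κ q) (hκ : κ ≤ 1)
    {k k' P : ℕ} (hkk : k ≤ k') (hk : k' ≤ M) (hP : P ≤ w₀ + k' * z + z) {S : Type}
    (W : D.Ω → S) (h1 : Det q W (D.c k)) (h1' : Det q W (D.c k'))
    (h2 : Det q W (D.cell J (w₀ + k' * z))) :
    CH q (fun ω => ⌊(2 : ℝ) ^ P * D.rh J k ω⌋) W ≤
      Real.log (2 * ((2 * n + 2) * Real.exp (3 * z)) + 3) := by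
  set u : ℕ := w₀ + k' * z with hu
  have hz : (0 : ℝ) ≤ z := Nat.cast_nonneg z
  refine ch_floor hOk.isLaw (fun ω => (2 : ℝ) ^ P * D.rh J k ω) W ?_
  intro ω ω' hω hω' hW
  have hu' : (0 : ℝ) < 2 ^ u := by positivity
  have hle : (1 : ℝ) / 2 ^ u ≤ 1 / 2 ^ (w₀ + k * z) := by
    refine one_div_le_one_div_of_le (by positivity) (pow_le_pow_right₀ (by norm_num) ?_)
    rw [hu]
    exact Nat.add_le_add_left (Nat.mul_le_mul_right z hkk) w₀
  have hcell := h2 ω ω' hω hω' hW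
  have c1 := sheet_near hOk (hkk.trans hk) hω hle (b := D.Y J ω') (cell_near hcell)
  have c2 := sheet_near hOk hk hω (le_refl ((1 : ℝ) / 2 ^ u)) (b := D.Y J ω') (cell_near hcell)
  have c3 := hOk.F_hgt k' hk ω hω
  have c4 := hOk.F_hgt k' hk ω' hω'
  have hc : D.c k ω = D.c k ω' := h1 ω ω' hω hω' hW
  have hc' : D.c k' ω = D.c k' ω' := h1' ω ω' hω hω' hW
  set E := Real.exp (κ * z) with hE
  have hEp : 0 < E := Real.exp_pos _
  have hg : E / 2 ^ D.g k' ≤ Real.exp (2 * z) / 2 ^ u := by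
    have g1 : (1 : ℝ) / 2 ^ D.g k' = Real.exp (((u : ℝ) - D.g k') * Real.log 2) / 2 ^ u := by
      rw [← pow_div]
      field_simp
    have g2 : Real.exp (((u : ℝ) - D.g k') * Real.log 2) ≤ Real.exp z := by
      refine Real.exp_le_exp.2 ?_
      have g3 := hOk.g_ge k' hk
      have g4 : (u : ℝ) - D.g k' ≤ z := by
        have : κ * z ≤ 1 * z := mul_le_mul_of_nonneg_right hκ hz
        linarith
      have l2 : 0 < Real.log 2 := Real.log_pos (by norm_num)
      have l3 : Real.log 2 ≤ 1 := by linarith [Real.log_two_lt_d9]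
      calc ((u : ℝ) - D.g k') * Real.log 2 ≤ z * Real.log 2 :=
            mul_le_mul_of_nonneg_right g4 l2.le
        _ ≤ z * 1 := mul_le_mul_of_nonneg_left l3 hz
        _ = z := mul_one _
    calc E / 2 ^ D.g k' = E * (1 / 2 ^ D.g k') := by ring
      _ = E * Real.exp (((u : ℝ) - D.g k') * Real.log 2) / 2 ^ u := by rw [g1]; ring
      _ ≤ Real.exp z * Real.exp z / 2 ^ u := by
          refine div_le_div_of_nonneg_right (mul_le_mul ?_ g2 (Real.exp_pos _).le
            (Real.exp_pos _).le) hu'.le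
          refine Real.exp_le_exp.2 ?_
          have : κ * z ≤ 1 * z := mul_le_mul_of_nonneg_right hκ hz
          linarith
      _ = Real.exp (2 * z) / 2 ^ u := by
          rw [← Real.exp_add]
          congr 2
          ring
  have e : D.rh J k ω - D.rh J k ω' = (D.rh J k' ω - D.rh J k' ω') -
      (MvPolynomial.eval (D.Y J ω') (D.F k' (D.c k' ω)) -
        MvPolynomial.eval (D.Y J ω) (D.F k' (D.c k' ω))) +
      (MvPolynomial.eval (D.Y J ω') (D.F k (D.c k ω)) -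
        MvPolynomial.eval (D.Y J ω) (D.F k (D.c k ω))) := by
    unfold Dat.rh
    rw [← hc, ← hc']
    ring
  have hEz : E ≤ Real.exp (2 * z) := by
    refine Real.exp_le_exp.2 ?_
    have : κ * z ≤ 1 * z := mul_le_mul_of_nonneg_right hκ hz
    linarith
  have c5 : |D.rh J k ω - D.rh J k ω'| ≤ (2 * n + 2) * Real.exp (2 * z) / 2 ^ u := by
    rw [e]
    have d1 : (n : ℝ) * (1 / 2 ^ u * E) ≤ n * Real.exp (2 * z) / 2 ^ u := by
      calc (n : ℝ) * (1 / 2 ^ u * E) = n * E / 2 ^ u := by ring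
        _ ≤ _ := div_le_div_of_nonneg_right
          (mul_le_mul_of_nonneg_left hEz (Nat.cast_nonneg n)) hu'.le
    have d2 : (2 * n + 2) * Real.exp (2 * z) / 2 ^ u = Real.exp (2 * z) / 2 ^ u +
        Real.exp (2 * z) / 2 ^ u + (n * Real.exp (2 * z) / 2 ^ u +
          n * Real.exp (2 * z) / 2 ^ u) := by ring
    rw [d2]
    rw [abs_le] at c1 c2 c3 c4 ⊢
    constructor <;> linarith [c1.1, c1.2, c2.1, c2.2, c3.1, c3.2, c4.1, c4.2]
  have c6 : (2 : ℝ) ^ P ≤ 2 ^ u * Real.exp z := by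
    calc (2 : ℝ) ^ P ≤ 2 ^ (u + z) := pow_le_pow_right₀ (by norm_num) hP
      _ = 2 ^ u * 2 ^ z := pow_add _ _ _
      _ ≤ 2 ^ u * Real.exp z := by
        refine mul_le_mul_of_nonneg_left ?_ hu'.le
        rw [← Real.exp_one_pow]
        exact pow_le_pow_left₀ (by norm_num) (by linarith [Real.exp_one_gt_d9]) z
  rw [← mul_sub, abs_mul, abs_of_pos (show (0 : ℝ) < 2 ^ P by positivity)]
  calc (2 : ℝ) ^ P * |D.rh J k ω - D.rh J k ω'| ≤
        (2 ^ u * Real.exp z) * ((2 * n + 2) * Real.exp (2 * z) / 2 ^ u) :=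
        mul_le_mul c6 c5 (abs_nonneg _) (by positivity)
    _ = (2 * n + 2) * (Real.exp z * Real.exp (2 * z)) := by field_simp
    _ = (2 * n + 2) * Real.exp (3 * z) := by
      rw [← Real.exp_add]
      congr 2
      ring

end Pool.BFL.RAT
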